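import Mathlib
import Pool.Agent.Lib.MP_fcdc94_gt.G2Count

set_option autoImplicit false

/-!
Fusion rules and sines: the number of admissible colourings of a torus with two boundary
curves coloured `a`, `b`, as a spectral sum.
-/

open Finset

namespace Pool.Agent.Lib.MP_fcdc94_gt.Log

/-- `sin (π x j / r)` -/
noncomputable def sn (r x j : ℕ) : ℝ := Real.sin (Real.pi * x * j / r)

lemma telescope (X t : ℝ) (m : ℕ) :
    2 * ((∑ k ∈ range m, Real.sin (X + 2 * k * t)) * Real.sin t) =
      Real.cos (X - t) - Real.cos (X + (2 * m - 1) * t) := by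
  induction m with
  | zero => simp; ring_nf
  | succ m ih =>
    rw [sum_range_succ, add_mul, mul_add, ih]
    have e1 : X + (2 * m - 1) * t = (X + 2 * m * t) - t := by ring
    have e2 : X + (2 * ((m + 1 : ℕ) : ℝ) - 1) * t = (X + 2 * m * t) + t := by push_cast; ring
    rw [e1, e2, Real.cos_sub (X + 2 * m * t) t, Real.cos_add (X + 2 * m * t) t]
    ring

/-- The fusion rule in the basis of the `S`-matrix. -/
lemma fusion (r a c j : ℕ) (ha : 1 ≤ a) (ha' : a ≤ r - 1) (hc : 1 ≤ c) (hc' : c ≤ r - 1) :
    (∑ d ∈ (Icc 1 (r - 1)).filter (Adm r a c), sn r d j) * sn r 1 j = sn r a j * sn r c j := by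
  have hr : 0 < r := by omega
  have hrR : (r : ℝ) ≠ 0 := by exact_mod_cast hr.ne'
  set t : ℝ := Real.pi * j / r with ht
  have hsn : ∀ x : ℕ, sn r x j = Real.sin (x * t) := by
    intro x
    unfold sn
    congr 1
    rw [ht]; ring
  set m := min (min a c) (min (r - a) (r - c)) with hm
  have h1 : ∑ d ∈ (Icc 1 (r - 1)).filter (Adm r a c), sn r d j =
      ∑ k ∈ range m, Real.sin (((max a c - min a c + 1 : ℕ) : ℝ) * t + 2 * k * t) := by
    refine sum_nbij' (fun c' => (c' - ((max a c - min a c) + 1)) / 2)
      (fun k => (max a c - min a c) + 1 + 2 * k) ?_ ?_ ?_ ?_ ?_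
    · intro d hd
      simp only [mem_filter, mem_Icc, Adm, Nat.odd_iff] at hd
      simp only [mem_range]
      omega
    · intro k hk
      simp only [mem_range] at hk
      simp only [mem_filter, mem_Icc, Adm, Nat.odd_iff]
      omega
    · intro d hd
      simp only [mem_filter, mem_Icc, Adm, Nat.odd_iff] at hd
      omega
    · intro k hk
      omega
    · intro d hd
      simp only [mem_filter, mem_Icc, Adm, Nat.odd_iff] at hd
      rw [hsn]
      congr 1
      have h2 : d = (max a c - min a c) + 1 + 2 * ((d - ((max a c - min a c) + 1)) / 2) := by omega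
      have h3 : (d : ℝ) = ((max a c - min a c + 1 : ℕ) : ℝ) +
          2 * (((d - ((max a c - min a c) + 1)) / 2 : ℕ) : ℝ) := by
        exact_mod_cast h2
      rw [h3]
      ring
  have h2 := telescope (((max a c - min a c + 1 : ℕ) : ℝ) * t) t m
  rw [← h1] at h2
  have h3 : ((max a c - min a c + 1 : ℕ) : ℝ) * t - t = ((max a c - min a c : ℕ) : ℝ) * t := by
    push_cast; ring
  have h4 : Real.cos (((max a c - min a c : ℕ) : ℝ) * t) = Real.cos (a * t - c * t) := by
    rcases le_total a c with h | h
    · rw [max_eq_right h, min_eq_left h, Nat.cast_sub h, ← Real.cos_neg]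
      congr 1; ring
    · rw [max_eq_left h, min_eq_right h, Nat.cast_sub h]
      congr 1; ring
  have h5 : Real.cos (((max a c - min a c + 1 : ℕ) : ℝ) * t + (2 * m - 1) * t) =
      Real.cos (a * t + c * t) := by
    have e1 : ((max a c - min a c + 1 : ℕ) : ℝ) * t + (2 * m - 1) * t =
        ((max a c - min a c + 2 * m : ℕ) : ℝ) * t := by push_cast; ring
    rw [e1]
    rcases le_total (a + c) r with h | h
    · have e2 : max a c - min a c + 2 * m = a + c := by omega
      rw [e2]
      congr 1; push_cast; ring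
    · have e2 : max a c - min a c + 2 * m = 2 * r - (a + c) := by omega
      rw [e2, Nat.cast_sub (by omega)]
      have e3 : (((2 * r : ℕ) : ℝ) - ((a + c : ℕ) : ℝ)) * t = j * (2 * Real.pi) - (a * t + c * t) := by
        rw [ht]; push_cast; field_simp
      rw [e3, Real.cos_nat_mul_two_pi_sub]
  rw [h3, h4, h5, Real.cos_sub, Real.cos_add] at h2
  rw [hsn 1, hsn a, hsn c, Nat.cast_one, one_mul]
  linarith

end Pool.Agent.Lib.MP_fcdc94_gt.Log
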