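import Mathlib
import Pool.Agent.Lib.MP_fcdc94_gt.Log.Fusion

set_option autoImplicit false

/-!
Orthogonality and the spectral form of the number of colourings of a two-holed torus.
-/

open Finset

namespace Pool.Agent.Lib.MP_fcdc94_gt.Log

/-- Folding a sum over `ℤ / 2r` which is symmetric and vanishes at `0` and `r`. -/
lemma fold {M : Type*} [AddCommGroup M] (r : ℕ) (hr : 1 ≤ r) (f : ℕ → M) (h0 : f 0 = 0)
    (hr0 : f r = 0) (hs : ∀ j, 1 ≤ j → j ≤ r - 1 → f (2 * r - j) = f j) :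
    ∑ j ∈ range (2 * r), f j = 2 • ∑ j ∈ Icc 1 (r - 1), f j := by
  obtain ⟨q, rfl⟩ : ∃ q, r = q + 1 := ⟨r - 1, by omega⟩
  have hI : ∑ a ∈ Icc 1 q, f a = ∑ k ∈ range q, f (k + 1) := by
    rw [range_eq_Ico, sum_Ico_add' f 0 q 1]
    rfl
  simp only [Nat.add_sub_cancel] at hs ⊢
  rw [two_mul, sum_range_add, sum_range_succ', h0, add_zero, ← hI, two_nsmul]
  congr 1
  rw [sum_range_succ', add_zero, hr0, add_zero, hI, ← sum_range_reflect]
  refine sum_congr rfl fun k hk => ?_
  have hk' := mem_range.1 hk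
  rw [← hs (k + 1) (by omega) (by omega)]
  congr 1
  omega

lemma sn_zero (r x : ℕ) : sn r x 0 = 0 := by simp [sn]

lemma sn_self (r x : ℕ) (hr : 0 < r) : sn r x r = 0 := by
  unfold sn
  have : (Real.pi * x * r / r : ℝ) = x * Real.pi := by
    have : (r : ℝ) ≠ 0 := by exact_mod_cast hr.ne'
    field_simp
  rw [this, Real.sin_nat_mul_pi]

lemma sn_refl (r x j : ℕ) (hr : 0 < r) (hj : j ≤ 2 * r) : sn r x (2 * r - j) = - sn r x j := by
  unfold sn
  have hrR : (r : ℝ) ≠ 0 := by exact_mod_cast hr.ne'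
  have : (Real.pi * x * ((2 * r - j : ℕ) : ℝ) / r : ℝ) =
      x * (2 * Real.pi) - Real.pi * x * j / r := by
    rw [Nat.cast_sub hj]
    push_cast
    field_simp
  rw [this, Real.sin_nat_mul_two_pi_sub]

lemma sn_comm (r x j : ℕ) : sn r x j = sn r j x := by
  unfold sn
  congr 1
  ring

lemma sn_pos (r j : ℕ) (hj : 1 ≤ j) (hj' : j ≤ r - 1) : 0 < sn r 1 j := by
  have := sin_pos_of r j hj hj'
  unfold sn
  simpa using this

/-- Orthogonality of the sine functions. -/
lemma sn_ortho (r d e : ℕ) (hd : 1 ≤ d) (hd' : d ≤ r - 1) (he : 1 ≤ e) (he' : e ≤ r - 1) :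
    ∑ j ∈ Icc 1 (r - 1), sn r d j * sn r e j = if d = e then (r : ℝ) / 2 else 0 := by
  have hr : 0 < r := by omega
  have hrR : (r : ℝ) ≠ 0 := by exact_mod_cast hr.ne'
  have h1 := fold r hr (fun j => sn r d j * sn r e j) (by simp [sn_zero]) (by
    simp [sn_self r _ hr]) (by
    intro j hj hj'
    rw [sn_refl r d j hr (by omega), sn_refl r e j hr (by omega)]
    ring)
  have h2 : ∀ j : ℕ, sn r d j * sn r e j =
      (Real.cos (2 * Real.pi * j * (((d : ℤ) - e : ℤ) : ℝ) / (2 * r : ℕ)) -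
        Real.cos (2 * Real.pi * j * (((d : ℤ) + e : ℤ) : ℝ) / (2 * r : ℕ))) / 2 := by
    intro j
    have e1 : (2 * Real.pi * j * (((d : ℤ) - e : ℤ) : ℝ) / (2 * r : ℕ) : ℝ) =
        Real.pi * d * j / r - Real.pi * e * j / r := by
      push_cast; field_simp
    have e2 : (2 * Real.pi * j * (((d : ℤ) + e : ℤ) : ℝ) / (2 * r : ℕ) : ℝ) =
        Real.pi * d * j / r + Real.pi * e * j / r := by
      push_cast; field_simp
    rw [e1, e2, Real.cos_sub, Real.cos_add]
    unfold sn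
    ring
  have h3 : ∑ j ∈ range (2 * r), sn r d j * sn r e j = if d = e then (r : ℝ) else 0 := by
    rw [sum_congr rfl (fun j _ => h2 j), ← sum_div, sum_sub_distrib,
      sum_cos (2 * r) (by omega), sum_cos (2 * r) (by omega)]
    have c2 : ¬ ((2 * r : ℕ) : ℤ) ∣ (d : ℤ) + e := by
      intro h
      have := Int.le_of_dvd (by omega) h
      omega
    rw [if_neg c2]
    by_cases hde : d = e
    · subst hde
      rw [if_pos rfl, if_pos (by simp)]
      push_cast; ring
    · rw [if_neg hde, if_neg]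
      · simp
      · intro h
        have h4 : ((d : ℤ) - e).natAbs < 2 * r := by omega
        have h5 := Int.eq_zero_of_dvd_of_natAbs_lt_natAbs h (by rw [Int.natAbs_natCast]; exact h4)
        omega
  rw [h3] at h1
  rw [nsmul_eq_mul] at h1
  push_cast at h1
  split_ifs at h1 ⊢ with hde
  · linarith
  · linarith

/-- The number of admissible colourings `(c, d)` of a torus with two boundary curves, which
are coloured `a` and `b`. -/
def holes (r a b : ℕ) : ℕ :=
  ∑ c ∈ Icc 1 (r - 1), ∑ d ∈ Icc 1 (r - 1), if Adm r a c d ∧ Adm r b c d then 1 else 0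

/-- The spectral form. -/
theorem holes_eq (r a b : ℕ) (ha : 1 ≤ a) (ha' : a ≤ r - 1) (hb : 1 ≤ b) (hb' : b ≤ r - 1) :
    (holes r a b : ℝ) = ∑ j ∈ Icc 1 (r - 1), sn r a j * sn r b j / sn r 1 j ^ 2 := by
  have hr : 0 < r := by omega
  have hrR : (r : ℝ) ≠ 0 := by exact_mod_cast hr.ne'
  have key : ∀ c ∈ Icc 1 (r - 1),
      (∑ d ∈ Icc 1 (r - 1), if Adm r a c d ∧ Adm r b c d then (1 : ℝ) else 0) =
        ∑ j ∈ Icc 1 (r - 1), (2 / r) * (sn r a j * sn r b j / sn r 1 j ^ 2 * sn r c j ^ 2) := by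
    intro c hc
    rw [mem_Icc] at hc
    have h1 : (∑ d ∈ Icc 1 (r - 1), if Adm r a c d ∧ Adm r b c d then (1 : ℝ) else 0) =
        (2 / r) * ∑ d ∈ (Icc 1 (r - 1)).filter (Adm r a c), ∑ e ∈ (Icc 1 (r - 1)).filter (Adm r b c),
          ∑ j ∈ Icc 1 (r - 1), sn r d j * sn r e j := by
      have h2 : ∀ d ∈ (Icc 1 (r - 1)).filter (Adm r a c),
          ∑ e ∈ (Icc 1 (r - 1)).filter (Adm r b c),
          ∑ j ∈ Icc 1 (r - 1), sn r d j * sn r e j = if Adm r b c d then (r : ℝ) / 2 else 0 := by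
        intro d hd
        rw [mem_filter, mem_Icc] at hd
        rw [sum_congr rfl (fun e he => sn_ortho r d e hd.1.1 hd.1.2
          (mem_Icc.1 (mem_filter.1 he).1).1 (mem_Icc.1 (mem_filter.1 he).1).2)]
        rw [sum_ite_eq]
        simp only [mem_filter, mem_Icc, hd.1.1, hd.1.2, true_and, and_self]
      rw [sum_congr rfl h2, sum_filter, mul_sum]
      refine sum_congr rfl fun d _ => ?_
      by_cases h3 : Adm r a c d
      · by_cases h4 : Adm r b c d
        · simp only [h3, h4, and_self, if_true]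
          field_simp
        · simp [h4]
      · simp [h3]
    rw [h1]
    have h5 : ∑ d ∈ (Icc 1 (r - 1)).filter (Adm r a c), ∑ e ∈ (Icc 1 (r - 1)).filter (Adm r b c),
          ∑ j ∈ Icc 1 (r - 1), sn r d j * sn r e j =
        ∑ j ∈ Icc 1 (r - 1), (∑ d ∈ (Icc 1 (r - 1)).filter (Adm r a c), sn r d j) *
          (∑ e ∈ (Icc 1 (r - 1)).filter (Adm r b c), sn r e j) := by
      rw [sum_congr rfl (fun d _ => sum_comm), sum_comm]
      refine sum_congr rfl fun j _ => ?_
      rw [sum_mul_sum]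
    rw [h5, mul_sum]
    refine sum_congr rfl fun j hj => ?_
    rw [mem_Icc] at hj
    have hp := sn_pos r j hj.1 hj.2
    have f1 := fusion r a c j ha ha' hc.1 hc.2
    have f2 := fusion r b c j hb hb' hc.1 hc.2
    rw [← eq_div_iff hp.ne'] at f1 f2
    rw [f1, f2]
    field_simp
  unfold holes
  push_cast
  rw [sum_congr rfl key, sum_comm]
  refine sum_congr rfl fun j hj => ?_
  rw [mem_Icc] at hj
  rw [← mul_sum, ← mul_sum]
  have h6 : ∑ c ∈ Icc 1 (r - 1), sn r c j ^ 2 = (r : ℝ) / 2 := by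
    have := sn_ortho r j j hj.1 hj.2 hj.1 hj.2
    rw [if_pos rfl] at this
    rw [← this]
    refine sum_congr rfl fun c _ => ?_
    rw [sn_comm r c j]
    ring
  rw [h6]
  field_simp

end Pool.Agent.Lib.MP_fcdc94_gt.Log
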