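import Mathlib
import Pool.Agent.Lib.MP_fcdc94_gt.Log.Spectral

set_option autoImplicit false

/-!
The entries of `S T S` up to normalisation, in absolute value.
-/

open Finset Complex

namespace Pool.Agent.Lib.MP_fcdc94_gt.Log

/-- `exp (π i n / (2 r))` -/
noncomputable def ee (r : ℕ) (n : ℤ) : ℂ := cexp (Real.pi * I * n / (2 * r))

lemma ee_add (r : ℕ) (m n : ℤ) : ee r (m + n) = ee r m * ee r n := by
  unfold ee
  rw [← Complex.exp_add]
  congr 1
  push_cast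
  ring

lemma ee_zero (r : ℕ) : ee r 0 = 1 := by simp [ee]

lemma ee_period (r : ℕ) (hr : 0 < r) (m : ℤ) : ee r (4 * r * m) = 1 := by
  unfold ee
  have hr' : (r : ℂ) ≠ 0 := by exact_mod_cast hr.ne'
  have : (Real.pi * I * ((4 * r * m : ℤ) : ℂ) / (2 * r) : ℂ) = (m : ℤ) * (2 * Real.pi * I) := by
    push_cast
    field_simp
    ring
  rw [this, Complex.exp_int_mul_two_pi_mul_I]

lemma norm_ee (r : ℕ) (n : ℤ) : ‖ee r n‖ = 1 := by
  unfold ee
  have : (Real.pi * I * n / (2 * r) : ℂ) = ((Real.pi * n / (2 * r) : ℝ) : ℂ) * I := by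
    push_cast; ring
  rw [this, Complex.norm_exp_ofReal_mul_I]

lemma ee_neg (r : ℕ) (n : ℤ) : ee r (-n) = (starRingEnd ℂ) (ee r n) := by
  unfold ee
  rw [← Complex.exp_conj]
  congr 1
  simp only [map_div₀, map_mul, Complex.conj_I, Complex.conj_ofReal, map_intCast, map_natCast,
    map_ofNat]
  push_cast
  ring

lemma sum_shift (f : ℤ → ℂ) (n : ℕ) (hp : ∀ a, f (a + n) = f a) (x : ℤ) :
    ∑ a ∈ range n, f (a + x) = ∑ a ∈ range n, f a := by
  have step : ∀ x : ℤ, ∑ a ∈ range n, f (a + (x + 1)) = ∑ a ∈ range n, f (a + x) := by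
    intro x
    have h1 := sum_range_succ' (fun a : ℕ => f (a + x)) n
    have h2 := sum_range_succ (fun a : ℕ => f (a + x)) n
    rw [h2] at h1
    have h3 : f (((n : ℕ) : ℤ) + x) = f (((0 : ℕ) : ℤ) + x) := by
      rw [add_comm, hp]; simp
    rw [h3] at h1
    have h4 := add_right_cancel h1
    rw [h4]
    refine sum_congr rfl fun a _ => ?_
    congr 1
    push_cast
    ring
  induction x using Int.induction_on with
  | zero => simp
  | succ i ih => rw [step, ih]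
  | pred i ih =>
    rw [← ih, ← step (-(i : ℤ) - 1)]
    simp

/-- The full Gauss sum. -/
noncomputable def G0 (r : ℕ) : ℂ := ∑ a ∈ range (2 * r), ee r ((a : ℤ) ^ 2)

lemma per_sq (r : ℕ) (hr : 0 < r) (x a : ℤ) :
    ee r ((a + ((2 * r : ℕ) : ℤ) + x) ^ 2) = ee r ((a + x) ^ 2) := by
  have : (a + ((2 * r : ℕ) : ℤ) + x) ^ 2 = (a + x) ^ 2 + 4 * r * (a + x + r) := by
    push_cast; ring
  rw [this, ee_add, ee_period r hr, mul_one]

lemma G_shift (r : ℕ) (hr : 0 < r) (x : ℤ) :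
    ∑ a ∈ range (2 * r), ee r ((a : ℤ) ^ 2 + 2 * a * x) = ee r (-x ^ 2) * G0 r := by
  have h1 := sum_shift (fun a => ee r (a ^ 2)) (2 * r) (fun a => by
    have := per_sq r hr 0 a
    simpa using this) x
  unfold G0
  rw [← h1, mul_sum]
  refine sum_congr rfl fun a _ => ?_
  rw [← ee_add]
  congr 1
  ring

lemma sum_ee (r : ℕ) (hr : 0 < r) (t : ℕ) (ht : t < 2 * r) :
    ∑ b ∈ range (2 * r), ee r (2 * t * b) = if t = 0 then (2 * r : ℂ) else 0 := by
  have hr' : (r : ℂ) ≠ 0 := by exact_mod_cast hr.ne'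
  have hrR : (r : ℝ) ≠ 0 := by exact_mod_cast hr.ne'
  split_ifs with h0
  · subst h0
    simp [ee_zero]
  · set w : ℂ := ee r (2 * t) with hw
    have h1 : ∀ b : ℕ, ee r (2 * t * b) = w ^ b := by
      intro b
      rw [hw]
      unfold ee
      rw [← Complex.exp_nat_mul]
      congr 1
      push_cast
      ring
    rw [sum_congr rfl (fun b _ => h1 b)]
    have hw1 : w ≠ 1 := by
      intro h
      have e : (Real.pi * I * ((2 * t : ℤ) : ℂ) / (2 * r) : ℂ) =
          2 * Real.pi * I * ((t / (2 * r) : ℝ) : ℂ) := by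
        push_cast
        field_simp
      rw [hw] at h
      unfold ee at h
      rw [e, exp_two_pi_eq_one_iff] at h
      obtain ⟨k, hk⟩ := h
      rw [div_eq_iff (by positivity)] at hk
      have hk2 : (t : ℤ) = k * (2 * r) := by exact_mod_cast hk
      have hk3 : 0 < k := by
        by_contra hcon
        have : k * (2 * (r : ℤ)) ≤ 0 := mul_nonpos_of_nonpos_of_nonneg (by omega) (by omega)
        omega
      have : 1 * (2 * (r : ℤ)) ≤ k * (2 * r) := mul_le_mul_of_nonneg_right (by omega) (by omega)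
      omega
    rw [geom_sum_eq hw1]
    have : w ^ (2 * r) = 1 := by
      rw [← h1]
      have e : (2 * (t : ℤ) * ((2 * r : ℕ) : ℤ)) = 4 * r * t := by push_cast; ring
      rw [e, ee_period r hr]
    rw [this, sub_self, zero_div]

lemma G0_sq (r : ℕ) (hr : 0 < r) : G0 r * (starRingEnd ℂ) (G0 r) = 2 * r := by
  unfold G0
  rw [map_sum, sum_mul_sum, sum_comm]
  have h1 : ∀ b ∈ range (2 * r), ∑ a ∈ range (2 * r), ee r ((a : ℤ) ^ 2) *
      (starRingEnd ℂ) (ee r ((b : ℤ) ^ 2)) = ∑ t ∈ range (2 * r), ee r ((t : ℤ) ^ 2) *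
        ee r (2 * t * b) := by
    intro b _
    rw [← sum_mul, ← ee_neg]
    have h2 := sum_shift (fun a => ee r (a ^ 2)) (2 * r) (fun a => by
      have := per_sq r hr 0 a
      simpa using this) b
    rw [← h2, sum_mul]
    refine sum_congr rfl fun t _ => ?_
    rw [← ee_add, ← ee_add]
    congr 1
    ring
  rw [sum_congr rfl h1, sum_comm]
  have h3 : ∀ t ∈ range (2 * r), ∑ b ∈ range (2 * r), ee r ((t : ℤ) ^ 2) * ee r (2 * t * b) =
      if t = 0 then (2 * r : ℂ) else 0 := by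
    intro t ht
    rw [← mul_sum, sum_ee r hr t (mem_range.1 ht)]
    split_ifs with h0
    · subst h0; simp [ee_zero]
    · simp
  rw [sum_congr rfl h3, sum_ite_eq']
  simp [hr]

lemma sn_mul (r a j k : ℕ) (hr : 0 < r) : ((sn r a j * sn r a k : ℝ) : ℂ) =
    (ee r (2 * a * ((j : ℤ) - k)) + ee r (2 * a * ((k : ℤ) - j)) -
      ee r (2 * a * ((j : ℤ) + k)) - ee r (2 * a * (-(j : ℤ) - k))) / 4 := by
  have hr' : (r : ℂ) ≠ 0 := by exact_mod_cast hr.ne'
  have h : ∀ x : ℕ, ((sn r a x : ℝ) : ℂ) = (ee r (-(2 * a * x)) - ee r (2 * a * x)) * I / 2 := by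
    intro x
    unfold sn ee
    rw [Complex.ofReal_sin, Complex.sin]
    have e1 : (-(((Real.pi * a * x / r : ℝ)) : ℂ) * I) =
        Real.pi * I * ((-(2 * a * x) : ℤ) : ℂ) / (2 * r) := by
      push_cast; field_simp
    have e2 : ((((Real.pi * a * x / r : ℝ)) : ℂ) * I) =
        Real.pi * I * ((2 * a * x : ℤ) : ℂ) / (2 * r) := by
      push_cast; field_simp
    rw [e1, e2]
  rw [Complex.ofReal_mul, h j, h k]
  have e1 : (2 * (a : ℤ) * ((j : ℤ) - k)) = 2 * a * j + -(2 * a * k) := by ring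
  have e2 : (2 * (a : ℤ) * ((k : ℤ) - j)) = -(2 * a * j) + 2 * a * k := by ring
  have e3 : (2 * (a : ℤ) * ((j : ℤ) + k)) = 2 * a * j + 2 * a * k := by ring
  have e4 : (2 * (a : ℤ) * (-(j : ℤ) - k)) = -(2 * a * j) + -(2 * a * k) := by ring
  rw [e1, e2, e3, e4, ee_add, ee_add, ee_add, ee_add]
  have hI : I * I = -1 := Complex.I_mul_I
  linear_combination ((ee r (-(2 * a * j)) - ee r (2 * a * j)) *
    (ee r (-(2 * a * k)) - ee r (2 * a * k)) / 4) * hI

/-- `∑ sin sin T`, the entries of `S T S`. -/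
noncomputable def W (r j k : ℕ) : ℂ :=
  ∑ a ∈ Icc 1 (r - 1), ((sn r a j * sn r a k : ℝ) : ℂ) * ee r ((a : ℤ) ^ 2)

lemma W_eq (r j k : ℕ) (hr : 0 < r) :
    W r j k = I / 2 * sn r j k * ee r (-(j : ℤ) ^ 2 - (k : ℤ) ^ 2) * G0 r := by
  have hr' : (r : ℂ) ≠ 0 := by exact_mod_cast hr.ne'
  have h1 := fold r hr (fun a => ((sn r a j * sn r a k : ℝ) : ℂ) * ee r ((a : ℤ) ^ 2))
    (by simp [sn]) (by
      have : sn r r j = 0 := by rw [sn_comm, sn_self r j hr]
      simp [this]) (by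
      intro a ha ha'
      have e1 : sn r (2 * r - a) j = - sn r a j := by
        rw [sn_comm, sn_refl r j a hr (by omega), sn_comm]
      have e2 : sn r (2 * r - a) k = - sn r a k := by
        rw [sn_comm, sn_refl r k a hr (by omega), sn_comm]
      have e3 : (((2 * r - a : ℕ) : ℤ)) ^ 2 = (a : ℤ) ^ 2 + 4 * r * (r - a) := by
        rw [Nat.cast_sub (by omega)]
        push_cast; ring
      rw [e1, e2, e3, ee_add, ee_period r hr]
      simp)
  have h2 : ∑ a ∈ range (2 * r), ((sn r a j * sn r a k : ℝ) : ℂ) * ee r ((a : ℤ) ^ 2) =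
      (ee r (-((j : ℤ) - k) ^ 2) - ee r (-((j : ℤ) + k) ^ 2)) / 2 * G0 r := by
    have h3 : ∀ a ∈ range (2 * r), ((sn r a j * sn r a k : ℝ) : ℂ) * ee r ((a : ℤ) ^ 2) =
        (ee r ((a : ℤ) ^ 2 + 2 * a * ((j : ℤ) - k)) + ee r ((a : ℤ) ^ 2 + 2 * a * ((k : ℤ) - j)) -
        ee r ((a : ℤ) ^ 2 + 2 * a * ((j : ℤ) + k)) - ee r ((a : ℤ) ^ 2 + 2 * a * (-(j : ℤ) - k))) / 4 := by
      intro a _
      rw [sn_mul r a j k hr, ee_add, ee_add, ee_add, ee_add]
      ring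
    rw [sum_congr rfl h3, ← sum_div, sum_sub_distrib, sum_sub_distrib, sum_add_distrib,
      G_shift r hr, G_shift r hr, G_shift r hr, G_shift r hr]
    have e1 : -((k : ℤ) - j) ^ 2 = -((j : ℤ) - k) ^ 2 := by ring
    have e2 : -(-(j : ℤ) - k) ^ 2 = -((j : ℤ) + k) ^ 2 := by ring
    rw [e1, e2]
    ring
  have h4 : W r j k = (ee r (-((j : ℤ) - k) ^ 2) - ee r (-((j : ℤ) + k) ^ 2)) / 4 * G0 r := by
    unfold W
    rw [h2, two_nsmul] at h1
    linear_combination -(1 / 2 : ℂ) * h1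
  rw [h4]
  have e1 : -((j : ℤ) - k) ^ 2 = (-(j : ℤ) ^ 2 - (k : ℤ) ^ 2) + 2 * j * k := by ring
  have e2 : -((j : ℤ) + k) ^ 2 = (-(j : ℤ) ^ 2 - (k : ℤ) ^ 2) + -(2 * j * k) := by ring
  have h : ((sn r j k : ℝ) : ℂ) = (ee r (-(2 * j * k)) - ee r (2 * j * k)) * I / 2 := by
    unfold sn ee
    rw [Complex.ofReal_sin, Complex.sin]
    have e1 : (-(((Real.pi * j * k / r : ℝ)) : ℂ) * I) =
        Real.pi * I * ((-(2 * j * k) : ℤ) : ℂ) / (2 * r) := by
      push_cast; field_simp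
    have e2 : ((((Real.pi * j * k / r : ℝ)) : ℂ) * I) =
        Real.pi * I * ((2 * j * k : ℤ) : ℂ) / (2 * r) := by
      push_cast; field_simp
    rw [e1, e2]
  rw [e1, e2, ee_add, ee_add, h]
  have hI : I * I = -1 := Complex.I_mul_I
  linear_combination (-(ee r (-(2 * j * k)) - ee r (2 * j * k)) / 4 *
    ee r (-(j : ℤ) ^ 2 - (k : ℤ) ^ 2) * G0 r) * hI

lemma W_sq (r j k : ℕ) (hr : 0 < r) :
    W r j k * (starRingEnd ℂ) (W r j k) = ((r / 2 * sn r j k ^ 2 : ℝ) : ℂ) := by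
  have hE : ee r (-(j : ℤ) ^ 2 - (k : ℤ) ^ 2) *
      (starRingEnd ℂ) (ee r (-(j : ℤ) ^ 2 - (k : ℤ) ^ 2)) = 1 := by
    rw [Complex.mul_conj, Complex.normSq_eq_norm_sq, norm_ee]
    simp
  have hG := G0_sq r hr
  have hI : I * I = -1 := Complex.I_mul_I
  rw [W_eq r j k hr]
  simp only [map_mul, map_div₀, Complex.conj_I, Complex.conj_ofReal, map_ofNat]
  push_cast
  calc _ = -(I * I) / 4 * (sn r j k : ℂ) ^ 2 * (ee r (-(j : ℤ) ^ 2 - (k : ℤ) ^ 2) *
      (starRingEnd ℂ) (ee r (-(j : ℤ) ^ 2 - (k : ℤ) ^ 2))) * (G0 r * (starRingEnd ℂ) (G0 r)) := by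
        ring
    _ = _ := by
        rw [hE, hG, hI]
        ring

end Pool.Agent.Lib.MP_fcdc94_gt.Log
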