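import Mathlib
import Pool.Agent.Lib.MP_fcdc94_gt.Log.Gauss

set_option autoImplicit false

/-!
The `SU(2)` invariant of the mapping torus of a bounding pair map of the closed surface of genus
three, and its exact evaluation.
-/

open Finset Complex

namespace Pool.Agent.Lib.MP_fcdc94_gt

/-- The `SU(2)` invariant at level `r - 2` of the mapping torus of the bounding pair map
`T_γ T_δ⁻¹` of the closed surface of genus three: the trace of the Dehn twists, which act on the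
basis of admissible colourings of the pants decomposition given by `γ` (colour `a`), `δ` (`b`)
and two curves on each of the two sides (`c`, `d` and `c'`, `d'`); the four pairs of pants have
the boundaries `(a, c, d)`, `(b, c, d)`, `(a, c', d')`, `(b, c', d')`. -/
noncomputable def boundingPairBundle (r : ℕ) : ℂ :=
  ∑ a ∈ Icc 1 (r - 1), ∑ b ∈ Icc 1 (r - 1), ∑ c ∈ Icc 1 (r - 1), ∑ d ∈ Icc 1 (r - 1),
    ∑ c' ∈ Icc 1 (r - 1), ∑ d' ∈ Icc 1 (r - 1),
      if Adm r a c d ∧ Adm r b c d ∧ Adm r a c' d' ∧ Adm r b c' d' then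
        tMat r a * (tMat r b)⁻¹ else 0

end Pool.Agent.Lib.MP_fcdc94_gt

namespace Pool.Agent.Lib.MP_fcdc94_gt.Log

lemma tMat_eq (r a : ℕ) (hr : 0 < r) : tMat r a = cexp (-(Real.pi * I / 4)) * ee r ((a : ℤ) ^ 2) := by
  have hr' : (r : ℂ) ≠ 0 := by exact_mod_cast hr.ne'
  unfold tMat ee
  rw [← Complex.exp_add]
  congr 1
  push_cast
  field_simp
  ring

lemma tMat_pair (r a b : ℕ) (hr : 0 < r) : tMat r a * (tMat r b)⁻¹ =
    ee r ((a : ℤ) ^ 2) * (starRingEnd ℂ) (ee r ((b : ℤ) ^ 2)) := by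
  rw [tMat_eq r a hr, tMat_eq r b hr, mul_inv, ← ee_neg]
  have h1 : (ee r ((b : ℤ) ^ 2))⁻¹ = ee r (-(b : ℤ) ^ 2) := by
    refine inv_eq_of_mul_eq_one_right ?_
    rw [← ee_add]
    simp [ee_zero]
  rw [h1]
  have h2 : cexp (-(Real.pi * I / 4)) ≠ 0 := Complex.exp_ne_zero _
  field_simp

lemma bundle_eq_holes (r : ℕ) : boundingPairBundle r =
    ∑ a ∈ Icc 1 (r - 1), ∑ b ∈ Icc 1 (r - 1),
      ((holes r a b : ℝ) : ℂ) * ((holes r a b : ℝ) : ℂ) * (tMat r a * (tMat r b)⁻¹) := by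
  unfold boundingPairBundle
  refine sum_congr rfl fun a _ => sum_congr rfl fun b _ => ?_
  have h : ((holes r a b : ℝ) : ℂ) = ∑ c ∈ Icc 1 (r - 1), ∑ d ∈ Icc 1 (r - 1),
      if Adm r a c d ∧ Adm r b c d then (1 : ℂ) else 0 := by
    unfold holes
    push_cast
    refine sum_congr rfl fun c _ => sum_congr rfl fun d _ => ?_
    split_ifs <;> simp
  rw [h, sum_mul, sum_mul]
  refine sum_congr rfl fun c _ => ?_
  rw [sum_mul, sum_mul]
  refine sum_congr rfl fun d _ => ?_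
  rw [mul_sum, sum_mul]
  refine sum_congr rfl fun c' _ => ?_
  rw [mul_sum, sum_mul]
  refine sum_congr rfl fun d' _ => ?_
  by_cases h1 : Adm r a c d ∧ Adm r b c d
  · by_cases h2 : Adm r a c' d' ∧ Adm r b c' d'
    · simp only [h1, h2, and_self, if_true, one_mul]
    · rw [if_neg (fun h => h2 h.2.2), if_neg h2]
      simp
  · rw [if_neg (fun h => h1 ⟨h.1, h.2.1⟩), if_neg h1]
    simp

/-- General trace formula. -/
lemma trace_general (r : ℕ) (hr : 2 ≤ r) (w : ℕ → ℝ) :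
    ∑ a ∈ Icc 1 (r - 1), ∑ b ∈ Icc 1 (r - 1), ((holes r a b : ℝ) : ℂ) *
      ((∑ k ∈ Icc 1 (r - 1), sn r a k * sn r b k * w k : ℝ) : ℂ) * (tMat r a * (tMat r b)⁻¹) =
    ((∑ k ∈ Icc 1 (r - 1), ∑ j ∈ Icc 1 (r - 1),
      r / 2 * sn r j k ^ 2 / sn r 1 j ^ 2 * w k : ℝ) : ℂ) := by
  have hr0 : 0 < r := by omega
  have h1 : ∀ a ∈ Icc 1 (r - 1), ∀ b ∈ Icc 1 (r - 1), ((holes r a b : ℝ) : ℂ) *
      ((∑ k ∈ Icc 1 (r - 1), sn r a k * sn r b k * w k : ℝ) : ℂ) * (tMat r a * (tMat r b)⁻¹) =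
      ∑ k ∈ Icc 1 (r - 1), ∑ j ∈ Icc 1 (r - 1), ((w k / sn r 1 j ^ 2 : ℝ) : ℂ) *
        ((((sn r a j * sn r a k : ℝ) : ℂ) * ee r ((a : ℤ) ^ 2)) *
          (((sn r b j * sn r b k : ℝ) : ℂ) * (starRingEnd ℂ) (ee r ((b : ℤ) ^ 2)))) := by
    intro a ha b hb
    rw [mem_Icc] at ha hb
    rw [holes_eq r a b ha.1 ha.2 hb.1 hb.2, tMat_pair r a b hr0]
    push_cast
    rw [sum_mul_sum, sum_comm, sum_mul]
    refine sum_congr rfl fun k _ => ?_
    rw [sum_mul]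
    refine sum_congr rfl fun j _ => ?_
    ring
  have h2 : ∑ a ∈ Icc 1 (r - 1), ∑ b ∈ Icc 1 (r - 1), ((holes r a b : ℝ) : ℂ) *
      ((∑ k ∈ Icc 1 (r - 1), sn r a k * sn r b k * w k : ℝ) : ℂ) * (tMat r a * (tMat r b)⁻¹) =
      ∑ a ∈ Icc 1 (r - 1), ∑ b ∈ Icc 1 (r - 1),
      ∑ k ∈ Icc 1 (r - 1), ∑ j ∈ Icc 1 (r - 1), ((w k / sn r 1 j ^ 2 : ℝ) : ℂ) *
        ((((sn r a j * sn r a k : ℝ) : ℂ) * ee r ((a : ℤ) ^ 2)) *
          (((sn r b j * sn r b k : ℝ) : ℂ) * (starRingEnd ℂ) (ee r ((b : ℤ) ^ 2)))) :=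
    sum_congr rfl fun a ha => sum_congr rfl fun b hb => h1 a ha b hb
  rw [h2]
  have h3 : ∀ k j : ℕ, ∑ a ∈ Icc 1 (r - 1), ∑ b ∈ Icc 1 (r - 1), ((w k / sn r 1 j ^ 2 : ℝ) : ℂ) *
        ((((sn r a j * sn r a k : ℝ) : ℂ) * ee r ((a : ℤ) ^ 2)) *
          (((sn r b j * sn r b k : ℝ) : ℂ) * (starRingEnd ℂ) (ee r ((b : ℤ) ^ 2)))) =
      ((w k / sn r 1 j ^ 2 : ℝ) : ℂ) * (W r j k * (starRingEnd ℂ) (W r j k)) := by
    intro k j
    unfold W
    rw [map_sum, sum_mul_sum, mul_sum]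
    refine sum_congr rfl fun a _ => ?_
    rw [mul_sum]
    refine sum_congr rfl fun b _ => ?_
    rw [map_mul, Complex.conj_ofReal]
  have h4 : ∑ a ∈ Icc 1 (r - 1), ∑ b ∈ Icc 1 (r - 1),
      ∑ k ∈ Icc 1 (r - 1), ∑ j ∈ Icc 1 (r - 1), ((w k / sn r 1 j ^ 2 : ℝ) : ℂ) *
        ((((sn r a j * sn r a k : ℝ) : ℂ) * ee r ((a : ℤ) ^ 2)) *
          (((sn r b j * sn r b k : ℝ) : ℂ) * (starRingEnd ℂ) (ee r ((b : ℤ) ^ 2)))) =
      ∑ k ∈ Icc 1 (r - 1), ∑ j ∈ Icc 1 (r - 1), ∑ a ∈ Icc 1 (r - 1), ∑ b ∈ Icc 1 (r - 1),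
        ((w k / sn r 1 j ^ 2 : ℝ) : ℂ) *
        ((((sn r a j * sn r a k : ℝ) : ℂ) * ee r ((a : ℤ) ^ 2)) *
          (((sn r b j * sn r b k : ℝ) : ℂ) * (starRingEnd ℂ) (ee r ((b : ℤ) ^ 2)))) := by
    rw [sum_congr rfl (fun a _ => sum_comm), sum_comm]
    refine sum_congr rfl fun k _ => ?_
    rw [sum_congr rfl (fun a _ => sum_comm), sum_comm]
  rw [h4, Complex.ofReal_sum]
  refine sum_congr rfl fun k _ => ?_
  rw [Complex.ofReal_sum]
  refine sum_congr rfl fun j _ => ?_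
  rw [h3, W_sq r j k hr0]
  push_cast
  ring

/-- `∑ sin² / sin² = k (r - k)`. -/
lemma fejer (r : ℕ) (hr : 1 ≤ r) (k : ℕ) (hk : k ≤ r) :
    ∑ j ∈ Icc 1 (r - 1), sn r j k ^ 2 / sn r 1 j ^ 2 = k * (r - k) := by
  have hrR : (r : ℝ) ≠ 0 := by exact_mod_cast (by omega : r ≠ 0)
  have hcos : ∀ k : ℕ, 1 ≤ k → k ≤ r - 1 →
      ∑ j ∈ Icc 1 (r - 1), Real.cos (2 * Real.pi * j * (k : ℤ) / r) = -1 := by
    intro k h1 h2
    rw [sum_Icc_eq r hr (fun j => Real.cos (2 * Real.pi * j * (k : ℤ) / r)),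
      sum_cos r (by omega) k, if_neg]
    · simp
    · intro h
      have := Int.le_of_dvd (by omega) h
      omega
  have step : ∀ k : ℕ, ∀ j ∈ Icc 1 (r - 1), sn r j (k + 2) ^ 2 / sn r 1 j ^ 2 =
      2 * (sn r j (k + 1) ^ 2 / sn r 1 j ^ 2) - sn r j k ^ 2 / sn r 1 j ^ 2 +
        2 * Real.cos (2 * Real.pi * j * ((k + 1 : ℕ) : ℤ) / r) := by
    intro k j hj
    rw [mem_Icc] at hj
    have hp := sn_pos r j hj.1 hj.2
    set t : ℝ := Real.pi * j / r with ht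
    have e1 : sn r 1 j = Real.sin t := by unfold sn; rw [ht]; congr 1; push_cast; ring
    have e2 : sn r j (k + 2) = Real.sin ((k + 1) * t + t) := by
      unfold sn; rw [ht]; congr 1; push_cast; ring
    have e3 : sn r j (k + 1) = Real.sin ((k + 1) * t) := by
      unfold sn; rw [ht]; congr 1; push_cast; ring
    have e4 : sn r j k = Real.sin ((k + 1) * t - t) := by
      unfold sn; rw [ht]; congr 1; ring
    have e5 : Real.cos (2 * Real.pi * j * ((k + 1 : ℕ) : ℤ) / r) =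
        Real.cos (2 * ((k + 1) * t)) := by
      rw [ht]; congr 1; push_cast; ring
    rw [e1] at hp
    rw [e1, e2, e3, e4, e5, Real.cos_two_mul, Real.sin_add, Real.sin_sub]
    have h1 := Real.sin_sq_add_cos_sq ((k + 1) * t)
    have h2 := Real.sin_sq_add_cos_sq t
    field_simp
    set s := Real.sin ((k + 1) * t)
    set c := Real.cos ((k + 1) * t)
    set s' := Real.sin t
    set c' := Real.cos t
    have h3 : c' ^ 2 = 1 - s' ^ 2 := by linarith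
    have h4 : c ^ 2 = 1 - s ^ 2 := by linarith
    nlinarith [h3, h4]
  have main : ∀ k : ℕ, k + 1 ≤ r → (∑ j ∈ Icc 1 (r - 1), sn r j k ^ 2 / sn r 1 j ^ 2 = k * (r - k)) ∧
      (∑ j ∈ Icc 1 (r - 1), sn r j (k + 1) ^ 2 / sn r 1 j ^ 2 = (k + 1) * (r - (k + 1))) := by
    intro k
    induction k with
    | zero =>
      intro _
      constructor
      · simp [sn_zero]
      · have : ∀ j ∈ Icc 1 (r - 1), sn r j (0 + 1) ^ 2 / sn r 1 j ^ 2 = 1 := by
          intro j hj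
          rw [mem_Icc] at hj
          have hp := sn_pos r j hj.1 hj.2
          rw [zero_add, sn_comm r j 1]
          field_simp
        rw [sum_congr rfl this]
        simp only [sum_const, Nat.card_Icc, nsmul_eq_mul, mul_one]
        have : r - 1 + 1 - 1 = r - 1 := by omega
        rw [this, Nat.cast_sub hr]
        push_cast; ring
    | succ k ih =>
      intro hk
      obtain ⟨i1, i2⟩ := ih (by omega)
      refine ⟨by rw [i2]; push_cast; ring, ?_⟩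
      rw [sum_congr rfl (step k), sum_add_distrib, sum_sub_distrib, ← mul_sum, ← mul_sum, i1, i2,
        hcos (k + 1) (by omega) (by omega)]
      push_cast
      ring
  rcases Nat.lt_or_ge k r with h | h
  · exact (main k h).1
  · have : k = r := by omega
    subst this
    have := (main (k - 1) (by omega)).2
    have e : k - 1 + 1 = k := by omega
    rw [e] at this
    rw [this, Nat.cast_sub hr]
    push_cast; ring

/-- **Exact evaluation.** -/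
theorem bundle_eq (r : ℕ) (hr : 2 ≤ r) : boundingPairBundle r =
    ((r / 2 * ∑ k ∈ Icc 1 (r - 1), (k : ℝ) * (r - k) / Real.sin (Real.pi * k / r) ^ 2 : ℝ) : ℂ) := by
  rw [bundle_eq_holes]
  have h1 := trace_general r hr (fun k => 1 / sn r 1 k ^ 2)
  have h2 : ∑ a ∈ Icc 1 (r - 1), ∑ b ∈ Icc 1 (r - 1),
      ((holes r a b : ℝ) : ℂ) * ((holes r a b : ℝ) : ℂ) * (tMat r a * (tMat r b)⁻¹) =
      ∑ a ∈ Icc 1 (r - 1), ∑ b ∈ Icc 1 (r - 1), ((holes r a b : ℝ) : ℂ) *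
      ((∑ k ∈ Icc 1 (r - 1), sn r a k * sn r b k * (1 / sn r 1 k ^ 2) : ℝ) : ℂ) *
        (tMat r a * (tMat r b)⁻¹) := by
    refine sum_congr rfl fun a ha => sum_congr rfl fun b hb => ?_
    rw [mem_Icc] at ha hb
    have := holes_eq r a b ha.1 ha.2 hb.1 hb.2
    congr 3
    rw [this]
    refine sum_congr rfl fun k _ => ?_
    ring
  rw [h2, h1]
  congr 1
  rw [mul_sum]
  refine sum_congr rfl fun k hk => ?_
  rw [mem_Icc] at hk
  have h3 := fejer r (by omega) k (by omega)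
  have h4 : ∑ j ∈ Icc 1 (r - 1), (r : ℝ) / 2 * sn r j k ^ 2 / sn r 1 j ^ 2 * (1 / sn r 1 k ^ 2) =
      (r / 2 * (1 / sn r 1 k ^ 2)) * ∑ j ∈ Icc 1 (r - 1), sn r j k ^ 2 / sn r 1 j ^ 2 := by
    rw [mul_sum]
    refine sum_congr rfl fun j _ => ?_
    ring
  rw [h4, h3]
  unfold sn
  rw [Nat.cast_one, mul_one]
  ring

end Pool.Agent.Lib.MP_fcdc94_gt.Log
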