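import Mathlib
import Pool.Agent.Lib.MP_fcdc94_gt.Log.Trace

set_option autoImplicit false

/-!
The leading term of the invariant is `r⁴ log r / π²`.
-/

open Finset Complex

namespace Pool.Agent.Lib.MP_fcdc94_gt.Log

lemma mul_cos_le_sin {x : ℝ} (h0 : 0 ≤ x) (h1 : x ≤ Real.pi / 2) : x * Real.cos x ≤ Real.sin x := by
  rcases h1.lt_or_eq with h | h
  · have h2 := Real.le_tan h0 h
    have h3 : 0 < Real.cos x := Real.cos_pos_of_mem_Ioo ⟨by linarith [Real.pi_pos], h⟩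
    rw [Real.tan_eq_sin_div_cos, le_div_iff₀ h3] at h2
    exact h2
  · rw [h, Real.cos_pi_div_two, Real.sin_pi_div_two]
    simp

lemma pw_half {x : ℝ} (h0 : 0 < x) (h1 : x ≤ Real.pi / 2) :
    |1 / Real.sin x ^ 2 - 1 / x ^ 2 - 1 / (Real.pi - x) ^ 2| ≤ 1 := by
  have hpi := Real.pi_gt_three
  have hs : 0 < Real.sin x := Real.sin_pos_of_pos_of_lt_pi h0 (by linarith)
  have hsx : Real.sin x ≤ x := Real.sin_le h0.le
  have hc := mul_cos_le_sin h0.le h1
  have hc0 : 0 ≤ Real.cos x := Real.cos_nonneg_of_neg_pi_div_two_le_of_le (by linarith) h1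
  have a1 : 1 / x ^ 2 ≤ 1 / Real.sin x ^ 2 :=
    one_div_le_one_div_of_le (by positivity) (pow_le_pow_left₀ hs.le hsx 2)
  have a2 : 1 / Real.sin x ^ 2 ≤ 1 / x ^ 2 + 1 := by
    have h2 : (x * Real.cos x) ^ 2 ≤ Real.sin x ^ 2 := pow_le_pow_left₀ (by positivity) hc 2
    have h3 : Real.cos x ^ 2 = 1 - Real.sin x ^ 2 := by
      have := Real.sin_sq_add_cos_sq x; linarith
    rw [mul_pow, h3] at h2
    rw [div_add_one (by positivity), div_le_div_iff₀ (by positivity) (by positivity)]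
    nlinarith
  have a3 : 0 ≤ 1 / (Real.pi - x) ^ 2 := by positivity
  have a4 : 1 / (Real.pi - x) ^ 2 ≤ 1 := by
    rw [div_le_one (by nlinarith)]
    nlinarith
  rw [abs_le]
  constructor <;> linarith

lemma pw {x : ℝ} (h0 : 0 < x) (h1 : x < Real.pi) :
    |1 / Real.sin x ^ 2 - 1 / x ^ 2 - 1 / (Real.pi - x) ^ 2| ≤ 1 := by
  rcases le_total x (Real.pi / 2) with h | h
  · exact pw_half h0 h
  · have := pw_half (x := Real.pi - x) (by linarith) (by linarith)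
    rw [Real.sin_pi_sub, sub_sub_cancel] at this
    have e : 1 / Real.sin x ^ 2 - 1 / x ^ 2 - 1 / (Real.pi - x) ^ 2 =
        1 / Real.sin x ^ 2 - 1 / (Real.pi - x) ^ 2 - 1 / x ^ 2 := by ring
    rw [e]
    exact this

/-- The harmonic sum. -/
lemma sum_eq_harmonic (n : ℕ) : ∑ k ∈ Icc 1 n, (1 : ℝ) / k = ((harmonic n : ℚ) : ℝ) := by
  induction n with
  | zero => simp
  | succ n ih =>
    rw [sum_Icc_succ_top (by omega), ih, harmonic_succ]
    push_cast
    rw [one_div]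

lemma harmonic_bounds (r : ℕ) (hr : 2 ≤ r) :
    Real.log r ≤ ∑ k ∈ Icc 1 (r - 1), (1 : ℝ) / k ∧
      ∑ k ∈ Icc 1 (r - 1), (1 : ℝ) / k ≤ Real.log r + 1 := by
  rw [sum_eq_harmonic]
  constructor
  · have := log_add_one_le_harmonic (r - 1)
    have e : r - 1 + 1 = r := by omega
    rwa [e] at this
  · have := harmonic_le_one_add_log (r - 1)
    have h2 : Real.log ((r - 1 : ℕ) : ℝ) ≤ Real.log r :=
      Real.log_le_log (by exact_mod_cast (by omega : 0 < r - 1)) (by exact_mod_cast (by omega))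
    linarith

/-- The sum in the exact evaluation. -/
noncomputable def A (r : ℕ) : ℝ :=
  ∑ k ∈ Icc 1 (r - 1), (k : ℝ) * (r - k) / Real.sin (Real.pi * k / r) ^ 2

lemma A_bound (r : ℕ) (hr : 2 ≤ r) :
    |A r - 2 * (r : ℝ) ^ 3 / Real.pi ^ 2 * Real.log r| ≤ 2 * (r : ℝ) ^ 3 := by
  have hpi := Real.pi_gt_three
  have hr0 : (0 : ℝ) < r := by exact_mod_cast (by omega : 0 < r)
  have hr2 : (2 : ℝ) ≤ r := by exact_mod_cast hr
  set H : ℝ := ∑ k ∈ Icc 1 (r - 1), (1 : ℝ) / k with hH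
  obtain ⟨hb1, hb2⟩ := harmonic_bounds r hr
  rw [← hH] at hb1 hb2
  -- reflection
  have hrefl : ∑ k ∈ Icc 1 (r - 1), (k : ℝ) / (r - k) = ∑ k ∈ Icc 1 (r - 1), ((r : ℝ) - k) / k := by
    refine sum_nbij' (fun k => r - k) (fun k => r - k) ?_ ?_ ?_ ?_ ?_
    · intro k hk; rw [mem_Icc] at hk ⊢; omega
    · intro k hk; rw [mem_Icc] at hk ⊢; omega
    · intro k hk; rw [mem_Icc] at hk; omega
    · intro k hk; rw [mem_Icc] at hk; omega
    · intro k hk
      rw [mem_Icc] at hk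
      rw [Nat.cast_sub (by omega : k ≤ r)]
      congr 1
      ring
  have hsum1 : ∑ k ∈ Icc 1 (r - 1), ((r : ℝ) - k) / k = r * H - (r - 1) := by
    have : ∀ k ∈ Icc 1 (r - 1), ((r : ℝ) - k) / k = r * (1 / k) - 1 := by
      intro k hk
      rw [mem_Icc] at hk
      have : (k : ℝ) ≠ 0 := by exact_mod_cast (by omega : k ≠ 0)
      field_simp
    rw [sum_congr rfl this, sum_sub_distrib, ← mul_sum, ← hH]
    simp only [sum_const, Nat.card_Icc, nsmul_eq_mul, mul_one]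
    have : r - 1 + 1 - 1 = r - 1 := by omega
    rw [this, Nat.cast_sub (by omega)]
    push_cast; ring
  have hmain : |A r - 2 * (r : ℝ) ^ 2 / Real.pi ^ 2 * (r * H - (r - 1))| ≤ (r : ℝ) ^ 3 := by
    have e1 : 2 * (r : ℝ) ^ 2 / Real.pi ^ 2 * (r * H - (r - 1)) =
        ∑ k ∈ Icc 1 (r - 1), (r : ℝ) ^ 2 / Real.pi ^ 2 * (((r : ℝ) - k) / k + (k : ℝ) / (r - k)) := by
      rw [← mul_sum, sum_add_distrib, hrefl, hsum1]
      ring
    rw [e1]
    unfold A
    rw [← sum_sub_distrib]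
    refine (abs_sum_le_sum_abs _ _).trans ?_
    have e2 : ∀ k ∈ Icc 1 (r - 1), |(k : ℝ) * (r - k) / Real.sin (Real.pi * k / r) ^ 2 -
        (r : ℝ) ^ 2 / Real.pi ^ 2 * (((r : ℝ) - k) / k + (k : ℝ) / (r - k))| ≤ (r : ℝ) ^ 2 := by
      intro k hk
      rw [mem_Icc] at hk
      have hk0 : (0 : ℝ) < k := by exact_mod_cast (by omega : 0 < k)
      have hkr : (k : ℝ) < r := by exact_mod_cast (by omega : k < r)
      have hrk : (0 : ℝ) < r - k := by linarith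
      set x : ℝ := Real.pi * k / r with hx
      have hx0 : 0 < x := by positivity
      have hx1 : x < Real.pi := by
        rw [hx, div_lt_iff₀ hr0]
        exact mul_lt_mul_of_pos_left hkr Real.pi_pos
      have hp := pw hx0 hx1
      have e3 : (k : ℝ) * (r - k) / Real.sin x ^ 2 -
        (r : ℝ) ^ 2 / Real.pi ^ 2 * (((r : ℝ) - k) / k + (k : ℝ) / (r - k)) =
          (k * (r - k)) * (1 / Real.sin x ^ 2 - 1 / x ^ 2 - 1 / (Real.pi - x) ^ 2) := by
        have e4 : Real.pi - x = Real.pi * (r - k) / r := by rw [hx]; field_simp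
        rw [e4]
        have e5 : 1 / x ^ 2 = (r : ℝ) ^ 2 / (Real.pi ^ 2 * (k : ℝ) ^ 2) := by
          rw [hx]; field_simp
        rw [e5]
        field_simp
        ring
      rw [e3, abs_mul, abs_of_pos (by positivity)]
      calc (k : ℝ) * (r - k) * |1 / Real.sin x ^ 2 - 1 / x ^ 2 - 1 / (Real.pi - x) ^ 2|
          ≤ k * (r - k) * 1 := mul_le_mul_of_nonneg_left hp (by positivity)
        _ ≤ (r : ℝ) ^ 2 := by nlinarith
    refine (sum_le_sum e2).trans ?_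
    simp only [sum_const, Nat.card_Icc, nsmul_eq_mul]
    have : ((r - 1 + 1 - 1 : ℕ) : ℝ) ≤ r := by exact_mod_cast (by omega)
    calc ((r - 1 + 1 - 1 : ℕ) : ℝ) * (r : ℝ) ^ 2 ≤ r * (r : ℝ) ^ 2 :=
          mul_le_mul_of_nonneg_right this (by positivity)
      _ = (r : ℝ) ^ 3 := by ring
  have hsec : |2 * (r : ℝ) ^ 2 / Real.pi ^ 2 * (r * H - (r - 1)) -
      2 * (r : ℝ) ^ 3 / Real.pi ^ 2 * Real.log r| ≤ (r : ℝ) ^ 3 := by
    have e1 : 2 * (r : ℝ) ^ 2 / Real.pi ^ 2 * (r * H - (r - 1)) -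
      2 * (r : ℝ) ^ 3 / Real.pi ^ 2 * Real.log r =
        (2 / Real.pi ^ 2) * ((r : ℝ) ^ 2 * (r * (H - Real.log r) - (r - 1))) := by
      field_simp
      ring
    have e2 : 2 / Real.pi ^ 2 ≤ 1 := by
      rw [div_le_one (by positivity)]
      nlinarith
    have e3 : |(r : ℝ) ^ 2 * (r * (H - Real.log r) - (r - 1))| ≤ (r : ℝ) ^ 3 := by
      rw [abs_mul, abs_of_pos (by positivity : (0 : ℝ) < (r : ℝ) ^ 2)]
      have e4 : |r * (H - Real.log r) - (r - 1)| ≤ r := by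
        rw [abs_le]
        constructor
        · have : 0 ≤ r * (H - Real.log r) := mul_nonneg hr0.le (by linarith)
          linarith
        · have : r * (H - Real.log r) ≤ r * 1 := mul_le_mul_of_nonneg_left (by linarith) hr0.le
          linarith
      calc (r : ℝ) ^ 2 * |r * (H - Real.log r) - (r - 1)| ≤ (r : ℝ) ^ 2 * r :=
            mul_le_mul_of_nonneg_left e4 (by positivity)
        _ = (r : ℝ) ^ 3 := by ring
    rw [e1, abs_mul, abs_of_pos (by positivity)]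
    calc 2 / Real.pi ^ 2 * |(r : ℝ) ^ 2 * (r * (H - Real.log r) - (r - 1))|
        ≤ 1 * (r : ℝ) ^ 3 := mul_le_mul e2 e3 (abs_nonneg _) (by norm_num)
      _ = (r : ℝ) ^ 3 := one_mul _
  have := abs_add_le (A r - 2 * (r : ℝ) ^ 2 / Real.pi ^ 2 * (r * H - (r - 1)))
    (2 * (r : ℝ) ^ 2 / Real.pi ^ 2 * (r * H - (r - 1)) - 2 * (r : ℝ) ^ 3 / Real.pi ^ 2 * Real.log r)
  rw [sub_add_sub_cancel] at this
  linarith

/-- **Leading term**: `Z(r) = r⁴ log r / π² + O(r⁴)`. -/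
theorem bundle_asymp (r : ℕ) (hr : 2 ≤ r) :
    ‖boundingPairBundle r - (((r : ℝ) ^ 4 * Real.log r / Real.pi ^ 2 : ℝ) : ℂ)‖ ≤ (r : ℝ) ^ 4 := by
  have hr0 : (0 : ℝ) < r := by exact_mod_cast (by omega : 0 < r)
  rw [bundle_eq r hr, ← Complex.ofReal_sub, Complex.norm_real, Real.norm_eq_abs]
  have h := A_bound r hr
  have e : (r : ℝ) / 2 * ∑ k ∈ Icc 1 (r - 1), (k : ℝ) * (r - k) / Real.sin (Real.pi * k / r) ^ 2 -
      (r : ℝ) ^ 4 * Real.log r / Real.pi ^ 2 =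
      (r / 2) * (A r - 2 * (r : ℝ) ^ 3 / Real.pi ^ 2 * Real.log r) := by
    unfold A
    ring
  rw [e, abs_mul, abs_of_pos (by positivity)]
  calc (r : ℝ) / 2 * |A r - 2 * (r : ℝ) ^ 3 / Real.pi ^ 2 * Real.log r| ≤ r / 2 * (2 * (r : ℝ) ^ 3) :=
        mul_le_mul_of_nonneg_left h (by positivity)
    _ = (r : ℝ) ^ 4 := by ring

end Pool.Agent.Lib.MP_fcdc94_gt.Log
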