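import Mathlib
import Pool.Agent.Lib.MP_fcdc94_gt.Log.Gauss

set_option autoImplicit false

/-!
Surgery on the H-shaped tree link with framings `(2, -2) - 0 - n - (2, -2)`: the Seifert
manifolds over `RP²(2, 2)`; for `n = 0` the flat Hantzsche-Wendt manifold.
-/

open Finset Complex

namespace Pool.Agent.Lib.MP_fcdc94_gt

/-- The contribution of a leaf with framing `m` attached to a vertex with colour `j`:
the sum of `S_{ja} T_a^m S_{a1}` over the colours `a`. -/
noncomputable def leaf (r : ℕ) (m : ℤ) (j : ℕ) : ℂ :=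
  ∑ a ∈ Icc 1 (r - 1), sMat r j a * tMat r a ^ m * sMat r a 1

/-- The `SU(2)` invariant at level `r - 2` of the 3-manifold obtained by surgery on the tree
link with two nodes, of framings `0` and `n`, joined by an edge, each with two leaves of
framings `2` and `-2`: every vertex of colour `c` and degree `e` contributes
`S_{1c}^(2-e) T_c^framing`, every edge with end colours `c`, `d` contributes `S_{cd}`. -/
noncomputable def treeSurgery (n : ℤ) (r : ℕ) : ℂ :=
  ∑ j ∈ Icc 1 (r - 1), ∑ k ∈ Icc 1 (r - 1),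
    (leaf r 2 j * leaf r (-2) j * (sMat r 1 j)⁻¹) * sMat r j k *
      (leaf r 2 k * leaf r (-2) k * (sMat r 1 k)⁻¹ * tMat r k ^ n)

end Pool.Agent.Lib.MP_fcdc94_gt

namespace Pool.Agent.Lib.MP_fcdc94_gt.Log

lemma sMat_eq (r a b : ℕ) : sMat r a b = ((Real.sqrt (2 / r) : ℝ) : ℂ) * ((sn r a b : ℝ) : ℂ) := by
  unfold sMat sn
  rw [Complex.ofReal_mul]

lemma tMat_sq (r a : ℕ) (hr : 0 < r) : tMat r a ^ (2 : ℤ) = -I * ee r (2 * (a : ℤ) ^ 2) := by
  have hr' : (r : ℂ) ≠ 0 := by exact_mod_cast hr.ne'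
  have h1 : tMat r a ^ (2 : ℤ) = tMat r a ^ 2 := by norm_cast
  rw [h1]
  unfold tMat ee
  rw [← Complex.exp_nat_mul]
  have h2 : (-I : ℂ) = cexp (-(Real.pi / 2 * I)) := by
    rw [Complex.exp_neg, Complex.exp_pi_div_two_mul_I]
    simp
  rw [h2, ← Complex.exp_add]
  congr 1
  push_cast
  field_simp
  ring

lemma norm_tMat (r a : ℕ) : ‖tMat r a‖ = 1 := by
  unfold tMat
  have : (2 * Real.pi * I * ((a : ℂ) ^ 2 / (4 * r) - 1 / 8) : ℂ) =
      ((2 * Real.pi * ((a : ℝ) ^ 2 / (4 * r) - 1 / 8) : ℝ) : ℂ) * I := by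
    push_cast; ring
  rw [this, Complex.norm_exp_ofReal_mul_I]

lemma tMat_conj (r a : ℕ) (m : ℤ) : tMat r a ^ (-m) = (starRingEnd ℂ) (tMat r a ^ m) := by
  rw [zpow_neg, map_zpow₀]
  have h : (starRingEnd ℂ) (tMat r a) = (tMat r a)⁻¹ := by
    rw [Complex.inv_def, Complex.normSq_eq_norm_sq, norm_tMat]
    simp
  rw [h, inv_zpow]

lemma leaf_conj (r : ℕ) (m : ℤ) (j : ℕ) : leaf r (-m) j = (starRingEnd ℂ) (leaf r m j) := by
  unfold leaf
  rw [map_sum]
  refine sum_congr rfl fun a _ => ?_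
  rw [map_mul, map_mul, tMat_conj]
  unfold sMat
  rw [Complex.conj_ofReal, Complex.conj_ofReal]

/-- The quadratic Gauss sum with a linear term. -/
noncomputable def gg (r : ℕ) (x : ℤ) : ℂ := ∑ a ∈ range (2 * r), ee r (2 * (a : ℤ) ^ 2 + 2 * a * x)

lemma gg_per (r : ℕ) (hr : 0 < r) (x a : ℤ) :
    ee r (2 * (a + ((2 * r : ℕ) : ℤ)) ^ 2 + 2 * (a + ((2 * r : ℕ) : ℤ)) * x) =
      ee r (2 * a ^ 2 + 2 * a * x) := by
  have : 2 * (a + ((2 * r : ℕ) : ℤ)) ^ 2 + 2 * (a + ((2 * r : ℕ) : ℤ)) * x =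
      (2 * a ^ 2 + 2 * a * x) + 4 * r * (2 * a + 2 * r + x) := by
    push_cast; ring
  rw [this, ee_add, ee_period r hr, mul_one]

lemma gg_step (r : ℕ) (hr : 0 < r) (x : ℤ) : gg r x = ee r (2 + 2 * x) * gg r (x + 2) := by
  have h1 := sum_shift (fun a => ee r (2 * a ^ 2 + 2 * a * x)) (2 * r) (gg_per r hr x) 1
  unfold gg
  rw [← h1, mul_sum]
  refine sum_congr rfl fun a _ => ?_
  rw [← ee_add]
  congr 1
  ring

lemma gg_neg (r : ℕ) (hr : 0 < r) (x : ℤ) : gg r (-x) = gg r x := by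
  obtain ⟨R, hR⟩ : ∃ R : ℕ, 2 * r = R + 1 := ⟨2 * r - 1, by omega⟩
  have h1 := sum_shift (fun a => ee r (2 * a ^ 2 + 2 * a * x)) (2 * r) (gg_per r hr x)
    (-(R : ℤ))
  unfold gg
  rw [← h1, ← sum_range_reflect]
  refine sum_congr rfl fun a ha => ?_
  rw [mem_range] at ha
  congr 1
  have : ((2 * r - 1 - a : ℕ) : ℤ) = R - a := by omega
  rw [this]
  ring

lemma sum_ee_two (r : ℕ) (hr : 0 < r) (t : ℕ) (ht : t < 2 * r) :
    ∑ b ∈ range (2 * r), ee r (4 * t * b) = if t = 0 ∨ t = r then (2 * r : ℂ) else 0 := by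
  have hr' : (r : ℂ) ≠ 0 := by exact_mod_cast hr.ne'
  have hrR : (r : ℝ) ≠ 0 := by exact_mod_cast hr.ne'
  split_ifs with h0
  · have h1 : ∀ b : ℕ, ee r (4 * t * b) = 1 := by
      intro b
      rcases h0 with h0 | h0
      · subst h0; simp [ee_zero]
      · subst h0; exact ee_period t hr b
    rw [sum_congr rfl (fun b _ => h1 b)]
    simp
  · set w : ℂ := ee r (4 * t) with hw
    have h1 : ∀ b : ℕ, ee r (4 * t * b) = w ^ b := by
      intro b
      rw [hw]
      unfold ee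
      rw [← Complex.exp_nat_mul]
      congr 1
      push_cast
      ring
    rw [sum_congr rfl (fun b _ => h1 b)]
    have hw1 : w ≠ 1 := by
      intro h
      have e : (Real.pi * I * ((4 * t : ℤ) : ℂ) / (2 * r) : ℂ) =
          2 * Real.pi * I * ((t / r : ℝ) : ℂ) := by
        push_cast
        field_simp
        ring
      rw [hw] at h
      unfold ee at h
      rw [e, exp_two_pi_eq_one_iff] at h
      obtain ⟨k, hk⟩ := h
      rw [div_eq_iff (by positivity)] at hk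
      have hk2 : (t : ℤ) = k * r := by exact_mod_cast hk
      push Not at h0
      have hk3 : 0 < k := by
        by_contra hcon
        have : k * (r : ℤ) ≤ 0 := mul_nonpos_of_nonpos_of_nonneg (by omega) (by omega)
        omega
      have hk4 : k < 2 := by
        by_contra hcon
        have : 2 * (r : ℤ) ≤ k * r := mul_le_mul_of_nonneg_right (by omega) (by omega)
        omega
      have hk5 : k = 1 := by omega
      rw [hk5] at hk2
      omega
    rw [geom_sum_eq hw1]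
    have : w ^ (2 * r) = 1 := by
      rw [← h1]
      have e : (4 * (t : ℤ) * ((2 * r : ℕ) : ℤ)) = 4 * r * (2 * t) := by push_cast; ring
      rw [e, ee_period r hr]
    rw [this, sub_self, zero_div]

lemma ee_two_mul (r : ℕ) (hr : 0 < r) (x : ℤ) : ee r (2 * r * x) = (-1) ^ x.natAbs := by
  unfold ee
  have hr' : (r : ℂ) ≠ 0 := by exact_mod_cast hr.ne'
  have : (Real.pi * I * ((2 * r * x : ℤ) : ℂ) / (2 * r) : ℂ) = (x : ℤ) * (Real.pi * I) := by
    push_cast
    field_simp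
  rw [this]
  rcases Int.natAbs_eq x with h | h
  · rw [h, Int.natAbs_natCast, Int.cast_natCast, Complex.exp_nat_mul, Complex.exp_pi_mul_I]
  · rw [h, Int.natAbs_neg, Int.natAbs_natCast, Int.cast_neg, Int.cast_natCast, neg_mul,
      Complex.exp_neg, Complex.exp_nat_mul, Complex.exp_pi_mul_I]
    rw [← inv_pow]
    norm_num

lemma gg_sq (r : ℕ) (hr : 0 < r) (x : ℤ) :
    gg r x * (starRingEnd ℂ) (gg r x) = 2 * r * (1 + (-1) ^ ((r : ℤ) + x).natAbs) := by
  unfold gg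
  rw [map_sum, sum_mul_sum, sum_comm]
  have h1 : ∀ b ∈ range (2 * r), ∑ a ∈ range (2 * r), ee r (2 * (a : ℤ) ^ 2 + 2 * a * x) *
      (starRingEnd ℂ) (ee r (2 * (b : ℤ) ^ 2 + 2 * b * x)) =
      ∑ t ∈ range (2 * r), ee r (2 * (t : ℤ) ^ 2 + 2 * t * x) * ee r (4 * t * b) := by
    intro b _
    rw [← sum_mul, ← ee_neg]
    have h2 := sum_shift (fun a => ee r (2 * a ^ 2 + 2 * a * x)) (2 * r) (gg_per r hr x) b
    rw [← h2, sum_mul]
    refine sum_congr rfl fun t _ => ?_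
    rw [← ee_add, ← ee_add]
    congr 1
    ring
  rw [sum_congr rfl h1, sum_comm]
  have h3 : ∀ t ∈ range (2 * r), ∑ b ∈ range (2 * r), ee r (2 * (t : ℤ) ^ 2 + 2 * t * x) *
      ee r (4 * t * b) = (if t = 0 then (2 * r : ℂ) else 0) +
        (if t = r then (2 * r : ℂ) * (-1) ^ ((r : ℤ) + x).natAbs else 0) := by
    intro t ht
    rw [← mul_sum, sum_ee_two r hr t (mem_range.1 ht)]
    by_cases h0 : t = 0
    · subst h0
      have : ¬ (0 = r) := by omega
      simp [ee_zero, this]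
    · by_cases h4 : t = r
      · subst h4
        have e : 2 * (t : ℤ) ^ 2 + 2 * t * x = 2 * t * (t + x) := by ring
        rw [e, ee_two_mul t hr]
        simp [h0]
        ring
      · simp [h0, h4]
  rw [sum_congr rfl h3, sum_add_distrib, sum_ite_eq', sum_ite_eq']
  have m1 : 0 ∈ range (2 * r) := mem_range.2 (by omega)
  have m2 : r ∈ range (2 * r) := mem_range.2 (by omega)
  rw [if_pos m1, if_pos m2]
  ring

/-- `∑ sin sin T²`. -/
noncomputable def W2 (r j : ℕ) : ℂ :=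
  ∑ a ∈ Icc 1 (r - 1), ((sn r a j * sn r a 1 : ℝ) : ℂ) * ee r (2 * (a : ℤ) ^ 2)

lemma W2_eq (r j : ℕ) (hr : 0 < r) :
    W2 r j = I / 2 * Real.sin (Real.pi * j / (2 * r)) * ee r j * gg r (j + 1) := by
  have hr' : (r : ℂ) ≠ 0 := by exact_mod_cast hr.ne'
  have h1 := fold r hr (fun a => ((sn r a j * sn r a 1 : ℝ) : ℂ) * ee r (2 * (a : ℤ) ^ 2))
    (by simp [sn]) (by
      have : sn r r j = 0 := by rw [sn_comm, sn_self r j hr]
      simp [this]) (by
      intro a ha ha'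
      have e1 : sn r (2 * r - a) j = - sn r a j := by
        rw [sn_comm, sn_refl r j a hr (by omega), sn_comm]
      have e2 : sn r (2 * r - a) 1 = - sn r a 1 := by
        rw [sn_comm, sn_refl r 1 a hr (by omega), sn_comm]
      have e3 : 2 * (((2 * r - a : ℕ) : ℤ)) ^ 2 = 2 * (a : ℤ) ^ 2 + 4 * r * (2 * (r - a)) := by
        rw [Nat.cast_sub (by omega)]
        push_cast; ring
      rw [e1, e2, e3, ee_add, ee_period r hr]
      simp)
  have h2 : ∑ a ∈ range (2 * r), ((sn r a j * sn r a 1 : ℝ) : ℂ) * ee r (2 * (a : ℤ) ^ 2) =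
      (gg r ((j : ℤ) - 1) - gg r ((j : ℤ) + 1)) / 2 := by
    have h3 : ∀ a ∈ range (2 * r), ((sn r a j * sn r a 1 : ℝ) : ℂ) * ee r (2 * (a : ℤ) ^ 2) =
        (ee r (2 * (a : ℤ) ^ 2 + 2 * a * ((j : ℤ) - 1)) +
          ee r (2 * (a : ℤ) ^ 2 + 2 * a * (-((j : ℤ) - 1))) -
        ee r (2 * (a : ℤ) ^ 2 + 2 * a * ((j : ℤ) + 1)) -
          ee r (2 * (a : ℤ) ^ 2 + 2 * a * (-((j : ℤ) + 1)))) / 4 := by
      intro a _
      rw [sn_mul r a j 1 hr, ee_add, ee_add, ee_add, ee_add]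
      have e1 : (2 * (a : ℤ) * (((1 : ℕ) : ℤ) - j)) = 2 * a * (-((j : ℤ) - 1)) := by
        push_cast; ring
      have e2 : (2 * (a : ℤ) * (-(j : ℤ) - ((1 : ℕ) : ℤ))) = 2 * a * (-((j : ℤ) + 1)) := by
        push_cast; ring
      rw [e1, e2, Nat.cast_one]
      ring
    rw [sum_congr rfl h3, ← sum_div, sum_sub_distrib, sum_sub_distrib, sum_add_distrib]
    change (gg r ((j : ℤ) - 1) + gg r (-((j : ℤ) - 1)) - gg r ((j : ℤ) + 1) -
      gg r (-((j : ℤ) + 1))) / 4 = _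
    rw [gg_neg r hr, gg_neg r hr]
    ring
  have h4 : W2 r j = (gg r ((j : ℤ) - 1) - gg r ((j : ℤ) + 1)) / 4 := by
    unfold W2
    rw [h2, two_nsmul] at h1
    linear_combination -(1 / 2 : ℂ) * h1
  have h5 := gg_step r hr ((j : ℤ) - 1)
  have e1 : (2 + 2 * ((j : ℤ) - 1)) = j + j := by ring
  have e2 : ((j : ℤ) - 1 + 2) = j + 1 := by ring
  rw [e1, e2, ee_add] at h5
  have h6 : ((Real.sin (Real.pi * j / (2 * r)) : ℝ) : ℂ) = (ee r (-j) - ee r j) * I / 2 := by
    unfold ee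
    rw [Complex.ofReal_sin, Complex.sin]
    have e1 : (-(((Real.pi * j / (2 * r) : ℝ)) : ℂ) * I) =
        Real.pi * I * ((-j : ℤ) : ℂ) / (2 * r) := by
      push_cast; ring
    have e2 : ((((Real.pi * j / (2 * r) : ℝ)) : ℂ) * I) =
        Real.pi * I * ((j : ℤ) : ℂ) / (2 * r) := by
      push_cast; ring
    rw [e1, e2]
  have h7 : ee r (-j) * ee r j = 1 := by
    rw [← ee_add]
    simp [ee_zero]
  rw [h4, h5, h6]
  have hI : I * I = -1 := Complex.I_mul_I
  linear_combination ((1 / 4 : ℂ) * gg r (j + 1)) * h7 -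
    ((ee r (-j) - ee r j) * ee r j * gg r (j + 1) / 4) * hI

lemma W2_sq (r j : ℕ) (hr : 0 < r) : W2 r j * (starRingEnd ℂ) (W2 r j) =
    ((if Odd (r + j) then r * Real.sin (Real.pi * j / (2 * r)) ^ 2 else 0 : ℝ) : ℂ) := by
  have hE : ee r j * (starRingEnd ℂ) (ee r j) = 1 := by
    rw [Complex.mul_conj, Complex.normSq_eq_norm_sq, norm_ee]
    simp
  have hG := gg_sq r hr (j + 1)
  have hI : I * I = -1 := Complex.I_mul_I
  rw [W2_eq r j hr]
  simp only [map_mul, map_div₀, Complex.conj_I, Complex.conj_ofReal, map_ofNat]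
  have e1 : ((r : ℤ) + ((j : ℤ) + 1)).natAbs = r + j + 1 := by omega
  rw [e1] at hG
  have e2 : I / 2 * (Real.sin (Real.pi * j / (2 * r)) : ℂ) * ee r j * gg r (j + 1) *
      (-I / 2 * (Real.sin (Real.pi * j / (2 * r)) : ℂ) * (starRingEnd ℂ) (ee r j) *
        (starRingEnd ℂ) (gg r (j + 1))) = -(I * I) / 4 *
          (Real.sin (Real.pi * j / (2 * r)) : ℂ) ^ 2 * (ee r j * (starRingEnd ℂ) (ee r j)) *
            (gg r (j + 1) * (starRingEnd ℂ) (gg r (j + 1))) := by ring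
  rw [e2, hE, hG, hI]
  split_ifs with h
  · have : ((-1 : ℂ)) ^ (r + j + 1) = 1 := Even.neg_one_pow (Odd.add_one h)
    rw [this]
    push_cast
    ring
  · have : ((-1 : ℂ)) ^ (r + j + 1) = -1 := by
      rw [Nat.not_odd_iff_even] at h
      exact Odd.neg_one_pow (Even.add_one h)
    rw [this]
    push_cast
    ring

lemma leaf_two (r j : ℕ) (hr : 0 < r) : leaf r 2 j = -I * (2 / r) * W2 r j := by
  have hr' : (r : ℂ) ≠ 0 := by exact_mod_cast hr.ne'
  unfold leaf W2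
  rw [mul_sum]
  refine sum_congr rfl fun a _ => ?_
  rw [tMat_sq r a hr, sMat_eq, sMat_eq, sn_comm r j a]
  have h : ((Real.sqrt (2 / r) : ℝ) : ℂ) * ((Real.sqrt (2 / r) : ℝ) : ℂ) = 2 / r := by
    rw [← Complex.ofReal_mul, Real.mul_self_sqrt (by positivity)]
    push_cast; ring
  rw [← h]
  push_cast
  ring

/-- The vector of the twisted `I`-bundle over the Klein bottle. -/
lemma vec_eq (r j : ℕ) (hj : 1 ≤ j) (hj' : j ≤ r - 1) :
    leaf r 2 j * leaf r (-2) j * (sMat r 1 j)⁻¹ =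
      ((Real.sqrt (2 / r) * (if Odd (r + j) then Real.tan (Real.pi * j / (2 * r)) else 0) : ℝ) : ℂ) := by
  have hr : 0 < r := by omega
  have hrR : (0 : ℝ) < r := by exact_mod_cast hr
  have hjR : (0 : ℝ) < j := by exact_mod_cast (by omega : 0 < j)
  have hjr : (j : ℝ) < r := by exact_mod_cast (by omega : j < r)
  have h1 : leaf r 2 j * leaf r (-2) j = (((2 / r) ^ 2 * (if Odd (r + j) then
      r * Real.sin (Real.pi * j / (2 * r)) ^ 2 else 0) : ℝ) : ℂ) := by
    rw [leaf_conj, leaf_two r j hr, Complex.ofReal_mul, ← W2_sq r j hr]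
    simp only [map_mul, map_neg, Complex.conj_I, map_div₀, map_ofNat, map_natCast]
    have hI : I * I = -1 := Complex.I_mul_I
    push_cast
    linear_combination (-(2 / (r : ℂ)) ^ 2 * W2 r j * (starRingEnd ℂ) (W2 r j)) * hI
  rw [h1, sMat_eq, ← Complex.ofReal_mul, ← Complex.ofReal_inv, ← Complex.ofReal_mul]
  congr 1
  set y : ℝ := Real.pi * j / (2 * r) with hy
  have hy0 : 0 < y := by positivity
  have hy1 : y < Real.pi / 2 := by
    rw [hy, div_lt_div_iff₀ (by positivity) (by norm_num)]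
    nlinarith [Real.pi_pos]
  have hs : 0 < Real.sin y := Real.sin_pos_of_pos_of_lt_pi hy0 (by linarith [Real.pi_pos])
  have hc : 0 < Real.cos y := Real.cos_pos_of_mem_Ioo ⟨by linarith, hy1⟩
  have e1 : sn r 1 j = 2 * Real.sin y * Real.cos y := by
    unfold sn
    rw [← Real.sin_two_mul]
    congr 1
    rw [hy]
    push_cast
    field_simp
  have hq : 0 < Real.sqrt (2 / r) := Real.sqrt_pos.2 (by positivity)
  have hqq : Real.sqrt (2 / r) * Real.sqrt (2 / r) = 2 / r := Real.mul_self_sqrt (by positivity)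
  rw [e1]
  split_ifs with h
  · rw [Real.tan_eq_sin_div_cos]
    have e2 : (2 / (r : ℝ)) ^ 2 * (r * Real.sin y ^ 2) =
        2 * (Real.sqrt (2 / r) * Real.sqrt (2 / r)) * Real.sin y ^ 2 := by
      rw [hqq]; field_simp
    rw [e2]
    field_simp
  · simp

end Pool.Agent.Lib.MP_fcdc94_gt.Log
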