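import Mathlib
import Pool.Agent.Lib.MP_fcdc94_gt.Log.Leaf

set_option autoImplicit false

/-!
Exact evaluation of the tree surgery.
-/

open Finset Complex

namespace Pool.Agent.Lib.MP_fcdc94_gt.Log

lemma fold' (r : ℕ) (hr : 1 ≤ r) (f : ℕ → ℝ)
    (hs : ∀ j, 1 ≤ j → j ≤ r - 1 → f (2 * r - j) = f j) :
    ∑ j ∈ range (2 * r), f j = f 0 + f r + 2 * ∑ j ∈ Icc 1 (r - 1), f j := by
  obtain ⟨q, rfl⟩ : ∃ q, r = q + 1 := ⟨r - 1, by omega⟩
  have hI : ∑ a ∈ Icc 1 q, f a = ∑ k ∈ range q, f (k + 1) := by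
    rw [range_eq_Ico, sum_Ico_add' f 0 q 1]
    rfl
  simp only [Nat.add_sub_cancel] at hs ⊢
  have h2 : ∑ j ∈ range (q + 1), f (q + 1 + j) = f (q + 1) + ∑ a ∈ Icc 1 q, f a := by
    rw [sum_range_succ', add_zero, hI, ← sum_range_reflect, add_comm]
    congr 1
    refine sum_congr rfl fun k hk => ?_
    have hk' := mem_range.1 hk
    rw [← hs (k + 1) (by omega) (by omega)]
    congr 1
    omega
  rw [two_mul (q + 1), sum_range_add, sum_range_succ', ← hI, h2]
  ring

lemma cosum (r m : ℕ) (hr : 1 ≤ r) (hm : m < 2 * r) :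
    ∑ j ∈ Icc 1 (r - 1), Real.cos (Real.pi * j * m / r) =
      (if m = 0 then (r : ℝ) else 0) - (1 + (-1) ^ m) / 2 := by
  have hrR : (r : ℝ) ≠ 0 := by exact_mod_cast (by omega : r ≠ 0)
  have h1 := fold' r hr (fun j => Real.cos (Real.pi * j * m / r)) (by
    intro j hj hj'
    have : (Real.pi * ((2 * r - j : ℕ) : ℝ) * m / r : ℝ) = m * (2 * Real.pi) - Real.pi * j * m / r := by
      rw [Nat.cast_sub (by omega)]
      push_cast
      field_simp
    rw [this, Real.cos_nat_mul_two_pi_sub])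
  have h2 : ∑ j ∈ range (2 * r), Real.cos (Real.pi * j * m / r) = if m = 0 then (2 * r : ℝ) else 0 := by
    have h3 := sum_cos (2 * r) (by omega) m
    have h4 : ∀ j : ℕ, Real.cos (2 * Real.pi * j * ((m : ℤ) : ℝ) / (2 * r : ℕ)) =
        Real.cos (Real.pi * j * m / r) := by
      intro j
      congr 1
      push_cast
      field_simp
    simp only [h4] at h3
    rw [h3]
    by_cases h0 : m = 0
    · subst h0; simp
    · rw [if_neg h0, if_neg]
      intro h
      have := Int.le_of_dvd (by omega) h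
      omega
  rw [h2] at h1
  have h5 : Real.cos (Real.pi * (r : ℕ) * m / r) = (-1) ^ m := by
    have : (Real.pi * (r : ℕ) * m / r : ℝ) = m * Real.pi := by field_simp
    rw [this, Real.cos_nat_mul_pi]
  simp only [Nat.cast_zero, mul_zero, zero_mul, zero_div, Real.cos_zero] at h1
  rw [h5] at h1
  split_ifs at h1 ⊢ with h0
  · linarith
  · linarith

/-- The sum over the colours of the parity of `r + 1`. -/
lemma csum (r k : ℕ) (hr : 1 ≤ r) (hk : k < r) :
    ∑ j ∈ Icc 1 (r - 1), (if Odd (r + j) then Real.cos (Real.pi * j * k / r) else 0) =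
      (if k = 0 then (r : ℝ) / 2 else 0) + ((-1) ^ r - 1) / 4 := by
  have hrR : (r : ℝ) ≠ 0 := by exact_mod_cast (by omega : r ≠ 0)
  have h1 : ∀ j : ℕ, (if Odd (r + j) then Real.cos (Real.pi * j * k / r) else 0) =
      (Real.cos (Real.pi * j * k / r) - (-1) ^ r * Real.cos (Real.pi * j * (k + r : ℕ) / r)) / 2 := by
    intro j
    have e : (Real.pi * j * ((k + r : ℕ) : ℝ) / r : ℝ) = Real.pi * j * k / r + j * Real.pi := by
      push_cast; field_simp
    rw [e, Real.cos_add_nat_mul_pi]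
    split_ifs with h
    · have h2 : ((-1 : ℝ)) ^ r * ((-1) ^ j * Real.cos (Real.pi * j * k / r)) =
          (-1) ^ (r + j) * Real.cos (Real.pi * j * k / r) := by rw [pow_add]; ring
      rw [h2, Odd.neg_one_pow h]
      ring
    · have h2 : ((-1 : ℝ)) ^ r * ((-1) ^ j * Real.cos (Real.pi * j * k / r)) =
          (-1) ^ (r + j) * Real.cos (Real.pi * j * k / r) := by rw [pow_add]; ring
      rw [Nat.not_odd_iff_even] at h
      rw [h2, Even.neg_one_pow h]
      ring
  rw [sum_congr rfl (fun j _ => h1 j), ← sum_div, sum_sub_distrib, ← mul_sum,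
    cosum r k hr (by omega), cosum r (k + r) hr (by omega), if_neg (by omega : ¬ k + r = 0)]
  have h3 : ((-1 : ℝ)) ^ r * (-1) ^ (k + r) = (-1) ^ k := by
    have : ((-1 : ℝ)) ^ r * (-1) ^ r = 1 := by
      rw [← mul_pow]; norm_num
    rw [pow_add]
    linear_combination (-1 : ℝ) ^ k * this
  split_ifs with h0
  · subst h0
    rw [zero_add] at h3 ⊢
    rw [pow_zero] at h3 ⊢
    linear_combination (1 / 4 : ℝ) * h3
  · linear_combination (1 / 4 : ℝ) * h3

/-- `tan (π j / 2 r)` for `j` of the parity of `r + 1`. -/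
noncomputable def tn (r j : ℕ) : ℝ := if Odd (r + j) then Real.tan (Real.pi * j / (2 * r)) else 0

lemma tn_sum (r : ℕ) (hr : 2 ≤ r) (k : ℕ) (hk : k + 1 ≤ r - 1) :
    ∑ j ∈ Icc 1 (r - 1), tn r j * sn r j (k + 1) = (-1) ^ k * (r / 2) := by
  have hrR : (0 : ℝ) < r := by exact_mod_cast (by omega : 0 < r)
  have step : ∀ k : ℕ, ∀ j ∈ Icc 1 (r - 1), tn r j * sn r j (k + 1) = - (tn r j * sn r j k) +
      ((if Odd (r + j) then Real.cos (Real.pi * j * k / r) else 0) -
        (if Odd (r + j) then Real.cos (Real.pi * j * (k + 1 : ℕ) / r) else 0)) := by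
    intro k j hj
    rw [mem_Icc] at hj
    unfold tn
    split_ifs with h
    · have hjR : (0 : ℝ) < j := by exact_mod_cast (by omega : 0 < j)
      have hjr : (j : ℝ) < r := by exact_mod_cast (by omega : j < r)
      set y : ℝ := Real.pi * j / (2 * r) with hy
      have hy0 : 0 < y := by positivity
      have hy1 : y < Real.pi / 2 := by
        rw [hy, div_lt_div_iff₀ (by positivity) (by norm_num)]
        nlinarith [Real.pi_pos]
      have hc : 0 < Real.cos y := Real.cos_pos_of_mem_Ioo ⟨by linarith, hy1⟩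
      have e1 : sn r j (k + 1) = Real.sin ((2 * k + 1) * y + y) := by
        unfold sn; rw [hy]; congr 1; push_cast; field_simp; ring
      have e2 : sn r j k = Real.sin ((2 * k + 1) * y - y) := by
        unfold sn; rw [hy]; congr 1; field_simp; ring
      have e3 : Real.cos (Real.pi * j * k / r) = Real.cos ((2 * k + 1) * y - y) := by
        rw [hy]; congr 1; field_simp; ring
      have e4 : Real.cos (Real.pi * j * (k + 1 : ℕ) / r) = Real.cos ((2 * k + 1) * y + y) := by
        rw [hy]; congr 1; push_cast; field_simp; ring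
      rw [e1, e2, e3, e4, Real.tan_eq_sin_div_cos, Real.sin_add, Real.sin_sub, Real.cos_add,
        Real.cos_sub]
      field_simp
      ring
    · simp
  induction k with
  | zero =>
    rw [sum_congr rfl (step 0), sum_add_distrib, sum_sub_distrib, csum r 0 (by omega) (by omega),
      csum r (0 + 1) (by omega) (by omega)]
    simp [sn_zero]
  | succ k ih =>
    rw [sum_congr rfl (step (k + 1)), sum_add_distrib, sum_sub_distrib,
      csum r (k + 1) (by omega) (by omega), csum r (k + 1 + 1) (by omega) (by omega),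
      sum_neg_distrib, ih (by omega)]
    simp
    ring

/-- First form of the exact evaluation. -/
theorem tree_eq (n : ℤ) (r : ℕ) (hr : 2 ≤ r) : treeSurgery n r =
    ((Real.sqrt (2 / r) : ℝ) : ℂ) * ∑ k ∈ Icc 1 (r - 1),
      (((-1) ^ (k - 1) * tn r k : ℝ) : ℂ) * tMat r k ^ n := by
  have hrR : (0 : ℝ) < r := by exact_mod_cast (by omega : 0 < r)
  have hqq : Real.sqrt (2 / r) * Real.sqrt (2 / r) = 2 / r := Real.mul_self_sqrt (by positivity)
  unfold treeSurgery
  rw [sum_comm, mul_sum]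
  refine sum_congr rfl fun k hk => ?_
  rw [mem_Icc] at hk
  rw [← sum_mul, vec_eq r k hk.1 hk.2]
  have h1 : ∑ j ∈ Icc 1 (r - 1), leaf r 2 j * leaf r (-2) j * (sMat r 1 j)⁻¹ * sMat r j k =
      (((-1) ^ (k - 1) : ℝ) : ℂ) := by
    have h2 : ∀ j ∈ Icc 1 (r - 1), leaf r 2 j * leaf r (-2) j * (sMat r 1 j)⁻¹ * sMat r j k =
        ((2 / r * (tn r j * sn r j k) : ℝ) : ℂ) := by
      intro j hj
      rw [mem_Icc] at hj
      rw [vec_eq r j hj.1 hj.2, sMat_eq, ← Complex.ofReal_mul, ← Complex.ofReal_mul]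
      congr 1
      unfold tn
      linear_combination ((if Odd (r + j) then Real.tan (Real.pi * j / (2 * r)) else 0) *
        sn r j k) * hqq
    rw [sum_congr rfl h2, ← Complex.ofReal_sum, ← mul_sum]
    congr 1
    obtain ⟨k', rfl⟩ : ∃ k', k = k' + 1 := ⟨k - 1, by omega⟩
    rw [tn_sum r hr k' hk.2, Nat.add_sub_cancel]
    field_simp
  rw [h1]
  unfold tn
  push_cast
  ring

/-- `cot (π k / 2 r)` for odd `k`. -/
noncomputable def ct (r k : ℕ) : ℝ := if Odd k then Real.cot (Real.pi * k / (2 * r)) else 0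

/-- The phase in front. -/
noncomputable def ph (n : ℤ) (r : ℕ) : ℂ :=
  (-1) ^ r * (-cexp (Real.pi * I * (2 * r - 1) / 4)) ^ n

lemma norm_ph (n : ℤ) (r : ℕ) : ‖ph n r‖ = 1 := by
  unfold ph
  have : (Real.pi * I * (2 * r - 1) / 4 : ℂ) = ((Real.pi * (2 * r - 1) / 4 : ℝ) : ℂ) * I := by
    push_cast; ring
  rw [norm_mul, norm_pow, norm_neg, norm_one, one_pow, one_mul, norm_zpow, norm_neg, this,
    Complex.norm_exp_ofReal_mul_I, one_zpow]

lemma ph_zero (r : ℕ) : ph 0 r = (-1) ^ r := by simp [ph]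

/-- **Exact evaluation of the invariant.** -/
theorem tree_exact (n : ℤ) (r : ℕ) (hr : 2 ≤ r) : treeSurgery n r =
    ph n r * ((Real.sqrt (2 / r) : ℝ) : ℂ) * ∑ k ∈ Icc 1 (r - 1),
      ((ct r k : ℝ) : ℂ) * ee r (n * (k : ℤ) ^ 2) := by
  have hr0 : (r : ℂ) ≠ 0 := by exact_mod_cast (by omega : r ≠ 0)
  have hrR : (r : ℝ) ≠ 0 := by exact_mod_cast (by omega : r ≠ 0)
  rw [tree_eq n r hr, mul_comm (ph n r), mul_assoc]
  congr 1
  rw [mul_sum]
  refine sum_nbij' (fun k => r - k) (fun k => r - k) ?_ ?_ ?_ ?_ ?_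
  · intro k hk; rw [mem_Icc] at hk ⊢; omega
  · intro k hk; rw [mem_Icc] at hk ⊢; omega
  · intro k hk; rw [mem_Icc] at hk; omega
  · intro k hk; rw [mem_Icc] at hk; omega
  · intro j hj
    rw [mem_Icc] at hj
    obtain ⟨k, hk1, hk2, rfl⟩ : ∃ k, 1 ≤ k ∧ k ≤ r - 1 ∧ j = r - k :=
      ⟨r - j, by omega, by omega, by omega⟩
    have e0 : r - (r - k) = k := by omega
    rw [e0]
    by_cases ho : Odd k
    · have ho2 : Odd (r + (r - k)) := by
        rw [Nat.odd_iff] at ho ⊢
        omega
      have h1 : ((-1 : ℝ)) ^ (r - k - 1) = (-1) ^ r := by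
        obtain ⟨m, hm⟩ := ho
        have e : r = (r - k - 1) + 2 * (m + 1) := by omega
        conv_rhs => rw [e]
        rw [pow_add, pow_mul]
        norm_num
      have h2 : tn r (r - k) = Real.cot (Real.pi * k / (2 * r)) := by
        unfold tn
        rw [if_pos ho2]
        have e : (Real.pi * ((r - k : ℕ) : ℝ) / (2 * r) : ℝ) = Real.pi / 2 - Real.pi * k / (2 * r) := by
          rw [Nat.cast_sub (by omega)]
          field_simp
        rw [e, Real.tan_pi_div_two_sub]
        rw [Real.tan_eq_sin_div_cos, inv_div, Real.cot_eq_cos_div_sin]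
      have h3 : tMat r (r - k) = -cexp (Real.pi * I * (2 * r - 1) / 4) * ee r ((k : ℤ) ^ 2) := by
        unfold tMat ee
        have e : (2 * Real.pi * I * (((r - k : ℕ) : ℂ) ^ 2 / (4 * r) - 1 / 8) : ℂ) =
            Real.pi * I * (2 * r - 1) / 4 + Real.pi * I * ((k ^ 2 : ℤ) : ℂ) / (2 * r) -
              k * (Real.pi * I) := by
          rw [Nat.cast_sub (by omega)]
          push_cast
          field_simp
          ring
        rw [e, Complex.exp_sub, Complex.exp_add, Complex.exp_nat_mul, Complex.exp_pi_mul_I,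
          Odd.neg_one_pow ho]
        ring
      have h4 : tMat r (r - k) ^ n =
          (-cexp (Real.pi * I * (2 * r - 1) / 4)) ^ n * ee r (n * (k : ℤ) ^ 2) := by
        rw [h3, mul_zpow]
        congr 1
        unfold ee
        rw [← Complex.exp_int_mul]
        congr 1
        push_cast
        ring
      rw [h1, h2, h4]
      unfold ph ct
      rw [if_pos ho]
      push_cast
      ring
    · have ho2 : ¬ Odd (r + (r - k)) := by
        rw [Nat.odd_iff] at ho ⊢
        omega
      unfold tn ct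
      rw [if_neg ho, if_neg ho2]
      simp

end Pool.Agent.Lib.MP_fcdc94_gt.Log
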