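import Mathlib
import Pool.Agent.Lib.MP_fcdc94_gt.Log.Asym

set_option autoImplicit false

/-!
A function of size `r ^ s log r` is not within `O(r ^ s)` of a finite sum of functions
`b exp (2 π i r c) r ^ t`.
-/

open Finset Complex Filter Topology

namespace Pool.Agent.Lib.MP_fcdc94_gt.Log

/-- Abstract form. -/
theorem not_approx {ι : Type*} [Fintype ι] (z : ι → ℂ) (hz : ∀ i, ‖z i‖ = 1) (α : ι → ℝ)
    (g : ι → ℂ) (Y : ℕ → ℂ) (s : ℝ)
    (hlow : Tendsto (fun r : ℕ => ‖Y r‖ * (r : ℝ) ^ (-s)) atTop atTop)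
    (hup : ∀ ε : ℝ, 0 < ε → Tendsto (fun r : ℕ => ‖Y r‖ * (r : ℝ) ^ (-s - ε)) atTop (𝓝 0))
    (C : ℝ) (h : ∀ᶠ r : ℕ in atTop,
      ‖Y r - ∑ i, g i * z i ^ r * (((r : ℝ) ^ (α i) : ℝ) : ℂ)‖ ≤ C * (r : ℝ) ^ s) : False := by
  classical
  set S : ℕ → ℂ := fun r => ∑ i, g i * z i ^ r * (((r : ℝ) ^ (α i) : ℝ) : ℂ) with hS
  -- choice of γ
  obtain ⟨γ, hγs, hγ⟩ : ∃ γ : ℝ, s < γ ∧ ∀ i, s < α i → γ ≤ α i := by
    by_cases hT : (univ.filter (fun i => s < α i)).Nonempty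
    · obtain ⟨k, hk, hmin⟩ := exists_min_image _ α hT
      exact ⟨α k, (mem_filter.1 hk).2, fun i hi => hmin i (by simp [hi])⟩
    · refine ⟨s + 1, by linarith, fun i hi => ?_⟩
      exact absurd ⟨i, by simp [hi]⟩ hT
  -- the sum is o(r ^ γ)
  have hlim : Tendsto (fun r : ℕ => (((r : ℝ) ^ (-γ) : ℝ) : ℂ) *
      ∑ i, g i * z i ^ r * (((r : ℝ) ^ (α i) : ℝ) : ℂ)) atTop (𝓝 0) := by
    rw [tendsto_zero_iff_norm_tendsto_zero]
    have hb : ∀ᶠ r : ℕ in atTop, ‖(((r : ℝ) ^ (-γ) : ℝ) : ℂ) *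
      ∑ i, g i * z i ^ r * (((r : ℝ) ^ (α i) : ℝ) : ℂ)‖ ≤
        C * (r : ℝ) ^ (s - γ) + ‖Y r‖ * (r : ℝ) ^ (-s - (γ - s)) := by
      filter_upwards [h, eventually_ge_atTop 1] with r hr hr1
      have hr0 : (0 : ℝ) < r := by exact_mod_cast hr1
      have e1 : ‖S r‖ ≤ C * (r : ℝ) ^ s + ‖Y r‖ := by
        have : S r = Y r - (Y r - S r) := by ring
        calc ‖S r‖ = ‖Y r - (Y r - S r)‖ := by rw [← this]
          _ ≤ ‖Y r‖ + ‖Y r - S r‖ := norm_sub_le _ _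
          _ ≤ ‖Y r‖ + C * (r : ℝ) ^ s := by linarith
          _ = _ := by ring
      rw [norm_mul, Complex.norm_real, Real.norm_of_nonneg (by positivity)]
      calc (r : ℝ) ^ (-γ) * ‖S r‖ ≤ (r : ℝ) ^ (-γ) * (C * (r : ℝ) ^ s + ‖Y r‖) :=
            mul_le_mul_of_nonneg_left e1 (by positivity)
        _ = C * ((r : ℝ) ^ s * (r : ℝ) ^ (-γ)) + ‖Y r‖ * (r : ℝ) ^ (-γ) := by ring
        _ = _ := by
            rw [← Real.rpow_add hr0]
            congr 2
            ring_nf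
    have hlim2 : Tendsto (fun r : ℕ => C * (r : ℝ) ^ (s - γ) +
        ‖Y r‖ * (r : ℝ) ^ (-s - (γ - s))) atTop (𝓝 0) := by
      have t1 := (tendsto_rpow_neg_nat (x := s - γ) (by linarith)).const_mul C
      have t2 := hup (γ - s) (by linarith)
      simpa using t1.add t2
    exact tendsto_of_tendsto_of_tendsto_of_le_of_le' tendsto_const_nhds hlim2
      (Eventually.of_forall fun _ => norm_nonneg _) hb
  have key := fun w β hβ => unique_coeff z hz α g γ hlim w β hβ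
  -- the terms of large exponent cancel
  have hbig : ∀ r : ℕ, ∑ i ∈ univ.filter (fun i => s < α i),
      g i * z i ^ r * (((r : ℝ) ^ (α i) : ℝ) : ℂ) = 0 := by
    intro r
    have e2 := sum_fiberwise_of_maps_to (s := univ.filter (fun i => s < α i))
      (t := (univ.filter (fun i => s < α i)).image (fun i => (z i, α i)))
      (g := fun i => (z i, α i)) (fun i hi => mem_image_of_mem _ hi)
      (fun i => g i * z i ^ r * (((r : ℝ) ^ (α i) : ℝ) : ℂ))
    rw [← e2]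
    refine sum_eq_zero fun p hp => ?_
    obtain ⟨k, hk, rfl⟩ := mem_image.1 hp
    have hk' : s < α k := (mem_filter.1 hk).2
    have e3 : (univ.filter (fun i => s < α i)).filter (fun i => (z i, α i) = (z k, α k)) =
        univ.filter (fun i => (z i, α i) = (z k, α k)) := by
      ext i
      simp only [mem_filter, mem_univ, true_and, Prod.mk.injEq]
      constructor
      · exact fun h => h.2
      · intro h; exact ⟨by rw [h.2]; exact hk', h⟩
    rw [e3]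
    have e4 : ∑ i ∈ univ.filter (fun i => (z i, α i) = (z k, α k)),
        g i * z i ^ r * (((r : ℝ) ^ (α i) : ℝ) : ℂ) =
        (∑ i ∈ univ.filter (fun i => (z i, α i) = (z k, α k)), g i) *
          (z k ^ r * (((r : ℝ) ^ (α k) : ℝ) : ℂ)) := by
      rw [sum_mul]
      refine sum_congr rfl fun i hi => ?_
      have := (mem_filter.1 hi).2
      rw [Prod.mk.injEq] at this
      rw [this.1, this.2]
      ring
    rw [e4, key (z k) (α k) (hγ k hk'), zero_mul]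
  have hsmall : ∀ r : ℕ, 1 ≤ r → ‖S r‖ ≤ (∑ i, ‖g i‖) * (r : ℝ) ^ s := by
    intro r hr1
    have hr : (1 : ℝ) ≤ r := by exact_mod_cast hr1
    have e1 : S r = ∑ i ∈ univ.filter (fun i => ¬ s < α i),
        g i * z i ^ r * (((r : ℝ) ^ (α i) : ℝ) : ℂ) := by
      have := sum_filter_add_sum_filter_not univ (fun i => s < α i)
        (fun i => g i * z i ^ r * (((r : ℝ) ^ (α i) : ℝ) : ℂ))
      rw [hbig r, zero_add] at this
      rw [this]
    rw [e1]
    refine (norm_sum_le _ _).trans ?_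
    rw [sum_mul]
    refine (sum_le_sum (fun i hi => ?_)).trans
      (sum_le_sum_of_subset_of_nonneg (filter_subset _ _) (fun i _ _ => by positivity))
    have hi' : α i ≤ s := not_lt.1 (mem_filter.1 hi).2
    rw [norm_mul, norm_mul, norm_pow, hz, one_pow, mul_one, Complex.norm_real,
      Real.norm_of_nonneg (by positivity)]
    exact mul_le_mul_of_nonneg_left (Real.rpow_le_rpow_of_exponent_le hr hi') (norm_nonneg _)
  -- contradiction
  have hfin : ∀ᶠ r : ℕ in atTop, ‖Y r‖ * (r : ℝ) ^ (-s) ≤ C + ∑ i, ‖g i‖ := by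
    filter_upwards [h, eventually_ge_atTop 1] with r hr hr1
    have hr0 : (0 : ℝ) < r := by exact_mod_cast hr1
    have e1 : ‖Y r‖ ≤ (C + ∑ i, ‖g i‖) * (r : ℝ) ^ s := by
      have : Y r = (Y r - S r) + S r := by ring
      calc ‖Y r‖ = ‖(Y r - S r) + S r‖ := by rw [← this]
        _ ≤ ‖Y r - S r‖ + ‖S r‖ := norm_add_le _ _
        _ ≤ C * (r : ℝ) ^ s + (∑ i, ‖g i‖) * (r : ℝ) ^ s := add_le_add hr (hsmall r hr1)
        _ = _ := by ring
    calc ‖Y r‖ * (r : ℝ) ^ (-s) ≤ (C + ∑ i, ‖g i‖) * (r : ℝ) ^ s * (r : ℝ) ^ (-s) :=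
          mul_le_mul_of_nonneg_right e1 (by positivity)
      _ = (C + ∑ i, ‖g i‖) * ((r : ℝ) ^ s * (r : ℝ) ^ (-s)) := by ring
      _ = C + ∑ i, ‖g i‖ := by rw [← Real.rpow_add hr0]; simp
  have h1 := hlow.eventually_gt_atTop (C + ∑ i, ‖g i‖)
  obtain ⟨r, hr1, hr2⟩ := (hfin.and h1).exists
  linarith

lemma tendsto_log_nat : Tendsto (fun r : ℕ => Real.log r) atTop atTop :=
  Real.tendsto_log_atTop.comp tendsto_natCast_atTop_atTop

lemma bundle_low (u : ℕ → ℂ) (hu : ∀ r, ‖u r‖ = 1) :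
    Tendsto (fun r : ℕ => ‖u r * boundingPairBundle r‖ * (r : ℝ) ^ (-(4 : ℝ))) atTop atTop := by
  have h1 : Tendsto (fun r : ℕ => Real.log r / Real.pi ^ 2 - 1) atTop atTop :=
    tendsto_atTop_add_const_right _ _ (tendsto_log_nat.atTop_div_const (by positivity))
  refine tendsto_atTop_mono' _ ?_ h1
  filter_upwards [eventually_ge_atTop 2] with r hr
  have hr0 : (0 : ℝ) < r := by exact_mod_cast (by omega : 0 < r)
  have h2 := bundle_asymp r hr
  have hlog : 0 ≤ Real.log r := Real.log_nonneg (by exact_mod_cast (by omega : 1 ≤ r))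
  have h3 : (r : ℝ) ^ 4 * Real.log r / Real.pi ^ 2 ≤ ‖boundingPairBundle r‖ + (r : ℝ) ^ 4 := by
    have e : ‖(((r : ℝ) ^ 4 * Real.log r / Real.pi ^ 2 : ℝ) : ℂ)‖ =
        (r : ℝ) ^ 4 * Real.log r / Real.pi ^ 2 := by
      rw [Complex.norm_real, Real.norm_of_nonneg (by positivity)]
    rw [← e]
    have : (((r : ℝ) ^ 4 * Real.log r / Real.pi ^ 2 : ℝ) : ℂ) = boundingPairBundle r -
        (boundingPairBundle r - (((r : ℝ) ^ 4 * Real.log r / Real.pi ^ 2 : ℝ) : ℂ)) := by ring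
    rw [this]
    exact (norm_sub_le _ _).trans (by linarith)
  rw [norm_mul, hu, one_mul]
  have h4 : (r : ℝ) ^ (-(4 : ℝ)) = ((r : ℝ) ^ 4)⁻¹ := by
    rw [Real.rpow_neg hr0.le]
    norm_cast
  rw [h4, ← div_eq_mul_inv, le_div_iff₀ (by positivity)]
  calc (Real.log r / Real.pi ^ 2 - 1) * (r : ℝ) ^ 4 =
      (r : ℝ) ^ 4 * Real.log r / Real.pi ^ 2 - (r : ℝ) ^ 4 := by ring
    _ ≤ _ := by linarith

lemma bundle_up (u : ℕ → ℂ) (hu : ∀ r, ‖u r‖ = 1) (ε : ℝ) (hε : 0 < ε) :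
    Tendsto (fun r : ℕ => ‖u r * boundingPairBundle r‖ * (r : ℝ) ^ (-(4 : ℝ) - ε)) atTop (𝓝 0) := by
  have h1 : Tendsto (fun r : ℕ => (Real.log r / (r : ℝ) ^ ε) / Real.pi ^ 2 + (r : ℝ) ^ (-ε))
      atTop (𝓝 0) := by
    have t1 : Tendsto (fun r : ℕ => Real.log r / (r : ℝ) ^ ε) atTop (𝓝 0) := by
      have := (isLittleO_log_rpow_atTop hε).tendsto_div_nhds_zero.comp
        (tendsto_natCast_atTop_atTop (R := ℝ))
      simpa [Function.comp_def] using this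
    have t2 := (tendsto_rpow_neg_nat (x := -ε) (by linarith))
    simpa using (t1.div_const (Real.pi ^ 2)).add t2
  refine tendsto_of_tendsto_of_tendsto_of_le_of_le' tendsto_const_nhds h1
    (Eventually.of_forall fun r => by positivity) ?_
  filter_upwards [eventually_ge_atTop 2] with r hr
  have hr0 : (0 : ℝ) < r := by exact_mod_cast (by omega : 0 < r)
  have h2 := bundle_asymp r hr
  have hlog : 0 ≤ Real.log r := Real.log_nonneg (by exact_mod_cast (by omega : 1 ≤ r))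
  have h3 : ‖boundingPairBundle r‖ ≤ (r : ℝ) ^ 4 * Real.log r / Real.pi ^ 2 + (r : ℝ) ^ 4 := by
    have e : ‖(((r : ℝ) ^ 4 * Real.log r / Real.pi ^ 2 : ℝ) : ℂ)‖ =
        (r : ℝ) ^ 4 * Real.log r / Real.pi ^ 2 := by
      rw [Complex.norm_real, Real.norm_of_nonneg (by positivity)]
    have : boundingPairBundle r = (((r : ℝ) ^ 4 * Real.log r / Real.pi ^ 2 : ℝ) : ℂ) +
        (boundingPairBundle r - (((r : ℝ) ^ 4 * Real.log r / Real.pi ^ 2 : ℝ) : ℂ)) := by ring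
    calc ‖boundingPairBundle r‖ = ‖(((r : ℝ) ^ 4 * Real.log r / Real.pi ^ 2 : ℝ) : ℂ) +
        (boundingPairBundle r - (((r : ℝ) ^ 4 * Real.log r / Real.pi ^ 2 : ℝ) : ℂ))‖ := by
          rw [← this]
      _ ≤ _ := norm_add_le _ _
      _ ≤ _ := by rw [e]; linarith
  rw [norm_mul, hu, one_mul]
  have h4 : (r : ℝ) ^ (-(4 : ℝ) - ε) = ((r : ℝ) ^ 4)⁻¹ * (r : ℝ) ^ (-ε) := by
    rw [sub_eq_add_neg, Real.rpow_add hr0, Real.rpow_neg hr0.le]
    norm_cast
  have h5 : Real.log r / (r : ℝ) ^ ε = Real.log r * (r : ℝ) ^ (-ε) := by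
    rw [Real.rpow_neg hr0.le, div_eq_mul_inv]
  rw [h4, h5]
  calc ‖boundingPairBundle r‖ * (((r : ℝ) ^ 4)⁻¹ * (r : ℝ) ^ (-ε))
      ≤ ((r : ℝ) ^ 4 * Real.log r / Real.pi ^ 2 + (r : ℝ) ^ 4) * (((r : ℝ) ^ 4)⁻¹ * (r : ℝ) ^ (-ε)) :=
        mul_le_mul_of_nonneg_right h3 (by positivity)
    _ = _ := by
        have : (r : ℝ) ^ 4 ≠ 0 := by positivity
        field_simp

/-- No finite sum of functions `b exp (2 π i r c) r ^ s` is within `O(r⁴)` of the invariant. -/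
theorem bundle_not_approx (u : ℕ → ℂ) (hu : ∀ r, ‖u r‖ = 1) (n : ℕ) (b : Fin n → ℂ)
    (c s : Fin n → ℝ) (C : ℝ) :
    ¬ ∀ r : ℕ, 2 ≤ r → ‖u r * boundingPairBundle r -
      ∑ i, b i * cexp (2 * Real.pi * I * (r * c i)) * (((r : ℝ) ^ (s i) : ℝ) : ℂ)‖ ≤
        C * (r : ℝ) ^ 4 := by
  intro h
  refine not_approx (fun i => cexp (2 * Real.pi * I * c i)) (fun i => ?_) s b
    (fun r => u r * boundingPairBundle r) 4 (bundle_low u hu) (bundle_up u hu) C ?_
  · have : (2 * Real.pi * I * c i : ℂ) = ((2 * Real.pi * c i : ℝ) : ℂ) * I := by push_cast; ring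
    rw [this, Complex.norm_exp_ofReal_mul_I]
  · filter_upwards [eventually_ge_atTop 2] with r hr
    have h1 := h r hr
    have e : ∀ i, cexp (2 * Real.pi * I * c i) ^ r = cexp (2 * Real.pi * I * (r * c i)) := by
      intro i
      rw [← Complex.exp_nat_mul]
      congr 1
      ring
    simp only [e]
    have e2 : (r : ℝ) ^ (4 : ℝ) = (r : ℝ) ^ 4 := by norm_cast
    rw [e2]
    exact h1

/-- The expansions of the conjecture, with any step `δ`. -/
theorem bundle_not_bound (u : ℕ → ℂ) (hu : ∀ r, ‖u r‖ = 1) (X : Expansion) (δ : ℝ)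
    (E : ℕ) (hE : X.top - (E + 1) * δ ≤ 4) :
    ¬ X.Bound δ (fun r => u r * boundingPairBundle r) E := by
  rintro ⟨C, hC⟩
  refine not_approx (ι := Fin (X.m + 1) × Fin (E + 1)) (fun p => X.z p.1) (fun p => X.norm_z p.1)
    (fun p => X.d p.1 - (p.2 : ℕ) * δ) (fun p => X.coeff p.1 p.2)
    (fun r => u r * boundingPairBundle r) 4 (bundle_low u hu) (bundle_up u hu) |C| ?_
  filter_upwards [eventually_ge_atTop 2] with r hr
  have hr1 : (1 : ℝ) ≤ r := by exact_mod_cast (by omega : 1 ≤ r)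
  have h1 := hC r hr
  rw [X.S_eq δ E r hr] at h1
  refine h1.trans ?_
  calc C * (r : ℝ) ^ (X.top - (E + 1) * δ) ≤ |C| * (r : ℝ) ^ (X.top - (E + 1) * δ) :=
        mul_le_mul_of_nonneg_right (le_abs_self C) (by positivity)
    _ ≤ |C| * (r : ℝ) ^ (4 : ℝ) :=
        mul_le_mul_of_nonneg_left (Real.rpow_le_rpow_of_exponent_le hr1 hE) (abs_nonneg C)

theorem bundle_fail (u : ℕ → ℂ) (hu : ∀ r, ‖u r‖ = 1) (X : Expansion) (δ : ℝ) (hδ : 0 < δ) :
    ¬ ∀ E, X.Bound δ (fun r => u r * boundingPairBundle r) E := by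
  intro h
  obtain ⟨E, hE⟩ := exists_nat_gt ((X.top - 4) / δ)
  rw [div_lt_iff₀ hδ] at hE
  refine bundle_not_bound u hu X δ E ?_ (h E)
  nlinarith

end Pool.Agent.Lib.MP_fcdc94_gt.Log
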