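import Mathlib
import Pool.Agent.Lib.MP_fcdc94_gt.Log.Exact
import Pool.Agent.Lib.MP_fcdc94_gt.Log.Asym
import Pool.Agent.Lib.MP_6bc78b_nt.VanDerCorput

set_option autoImplicit false

/-!
Sums over odd integers: harmonic sums and their twists by Gauss phases.
-/

open Finset Complex

namespace Pool.Agent.Lib.MP_fcdc94_gt.Log

lemma cot_bound {y : ℝ} (h0 : 0 < y) (h1 : y < Real.pi / 2) : |Real.cot y - 1 / y| ≤ 1 := by
  have hs : 0 < Real.sin y := Real.sin_pos_of_pos_of_lt_pi h0 (by linarith [Real.pi_pos])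
  have hc : 0 < Real.cos y := Real.cos_pos_of_mem_Ioo ⟨by linarith, h1⟩
  have h2 := mul_cos_le_sin h0.le h1.le
  have h3 : 1 - Real.cos y ≤ Real.sin y := by
    have e := Real.sin_sq_add_cos_sq y
    have hc1 := Real.cos_le_one y
    by_contra hcon
    push Not at hcon
    nlinarith
  have h4 : Real.sin y ≤ y := Real.sin_le h0.le
  have e : Real.cot y - 1 / y = -((Real.sin y - y * Real.cos y) / (y * Real.sin y)) := by
    rw [Real.cot_eq_cos_div_sin]
    field_simp
    ring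
  rw [e, abs_neg, abs_of_nonneg (by apply div_nonneg <;> [linarith; positivity])]
  rw [div_le_one (by positivity)]
  nlinarith

/-- The odd harmonic sum. -/
noncomputable def oh (n : ℕ) : ℝ := ∑ k ∈ Icc 1 n, if Odd k then (1 : ℝ) / k else 0

lemma oh_eq (n : ℕ) : oh n = ∑ k ∈ Icc 1 n, (1 : ℝ) / k - (1 / 2) * ∑ k ∈ Icc 1 (n / 2), (1 : ℝ) / k := by
  have h1 : ∑ k ∈ Icc 1 n, (1 : ℝ) / k = oh n + ∑ k ∈ Icc 1 n, if ¬ Odd k then (1 : ℝ) / k else 0 := by
    unfold oh
    rw [← sum_add_distrib]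
    refine sum_congr rfl fun k _ => ?_
    split_ifs <;> simp
  have h2 : (∑ k ∈ Icc 1 n, if ¬ Odd k then (1 : ℝ) / k else 0) =
      (1 / 2) * ∑ k ∈ Icc 1 (n / 2), (1 : ℝ) / k := by
    rw [← sum_filter, mul_sum]
    refine sum_nbij' (fun k => k / 2) (fun k => 2 * k) ?_ ?_ ?_ ?_ ?_
    · intro k hk
      simp only [mem_filter, mem_Icc, Nat.odd_iff] at hk ⊢
      omega
    · intro k hk
      simp only [mem_filter, mem_Icc, Nat.odd_iff] at hk ⊢
      omega
    · intro k hk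
      simp only [mem_filter, mem_Icc, Nat.odd_iff] at hk
      omega
    · intro k hk
      omega
    · intro k hk
      simp only [mem_filter, mem_Icc, Nat.odd_iff] at hk
      have e : k = 2 * (k / 2) := by omega
      have e2 : (k : ℝ) = 2 * ((k / 2 : ℕ) : ℝ) := by exact_mod_cast e
      have h3 : (0 : ℝ) < ((k / 2 : ℕ) : ℝ) := by exact_mod_cast (by omega : 0 < k / 2)
      rw [e2]
      field_simp
  rw [h1, h2]
  ring

lemma H_bounds (n : ℕ) : Real.log (n + 1) ≤ ∑ k ∈ Icc 1 n, (1 : ℝ) / k ∧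
    ∑ k ∈ Icc 1 n, (1 : ℝ) / k ≤ 1 + Real.log n := by
  rw [sum_eq_harmonic]
  refine ⟨?_, harmonic_le_one_add_log n⟩
  have := log_add_one_le_harmonic n
  push_cast at this
  exact this

lemma oh_bound (n : ℕ) (hn : 1 ≤ n) : |oh n - (1 / 2) * Real.log (n + 1)| ≤ 2 := by
  have hn0 : (0 : ℝ) < n := by exact_mod_cast hn
  have hl2 : Real.log 2 ≤ 1 := by
    have := Real.log_two_lt_d9; linarith
  have hl20 : 0 < Real.log 2 := Real.log_pos (by norm_num)
  obtain ⟨a1, a2⟩ := H_bounds n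
  have a3 : Real.log n ≤ Real.log (n + 1) := Real.log_le_log hn0 (by linarith)
  have hlog : 0 ≤ Real.log n := Real.log_nonneg (by exact_mod_cast hn)
  rw [oh_eq]
  -- bounds for the second sum
  have b : Real.log (n + 1) - Real.log 2 ≤ ∑ k ∈ Icc 1 (n / 2), (1 : ℝ) / k ∧
      ∑ k ∈ Icc 1 (n / 2), (1 : ℝ) / k ≤ 1 + Real.log (n + 1) := by
    rcases Nat.eq_zero_or_pos (n / 2) with h | h
    · have hn1 : n = 1 := by omega
      subst hn1
      norm_num
      linarith
    · obtain ⟨c1, c2⟩ := H_bounds (n / 2)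
      have c3 : (n : ℝ) + 1 ≤ 2 * (((n / 2 : ℕ) : ℝ) + 1) := by exact_mod_cast (by omega)
      have c4 : ((n / 2 : ℕ) : ℝ) ≤ n + 1 := by exact_mod_cast (by omega)
      have c5 : (0 : ℝ) < ((n / 2 : ℕ) : ℝ) := by exact_mod_cast h
      constructor
      · refine le_trans ?_ c1
        rw [← Real.log_div (by positivity) (by norm_num)]
        apply Real.log_le_log (by positivity)
        linarith
      · refine c2.trans ?_
        have := Real.log_le_log c5 c4
        linarith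
  rw [abs_le]
  constructor <;> linarith

/-- Twisted sums. -/
noncomputable def et (n : ℤ) (r : ℕ) : ℂ :=
  ∑ k ∈ Icc 1 (r - 1), (((if Odd k then (1 : ℝ) / k else 0 : ℝ)) : ℂ) * ee r (n * (k : ℤ) ^ 2)

/-- The sum in the exact evaluation against the twisted harmonic sum. -/
lemma ct_sum_bound (n : ℤ) (r : ℕ) (hr : 2 ≤ r) :
    ‖∑ k ∈ Icc 1 (r - 1), ((ct r k : ℝ) : ℂ) * ee r (n * (k : ℤ) ^ 2) -
      ((2 * r / Real.pi : ℝ) : ℂ) * et n r‖ ≤ r := by
  have hrR : (0 : ℝ) < r := by exact_mod_cast (by omega : 0 < r)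
  unfold et
  rw [mul_sum, ← sum_sub_distrib]
  refine (norm_sum_le _ _).trans ?_
  have h1 : ∀ k ∈ Icc 1 (r - 1), ‖((ct r k : ℝ) : ℂ) * ee r (n * (k : ℤ) ^ 2) -
      ((2 * r / Real.pi : ℝ) : ℂ) * ((((if Odd k then (1 : ℝ) / k else 0 : ℝ)) : ℂ) *
        ee r (n * (k : ℤ) ^ 2))‖ ≤ 1 := by
    intro k hk
    rw [mem_Icc] at hk
    have hk0 : (0 : ℝ) < k := by exact_mod_cast (by omega : 0 < k)
    have hkr : (k : ℝ) < r := by exact_mod_cast (by omega : k < r)
    have e : ((ct r k : ℝ) : ℂ) * ee r (n * (k : ℤ) ^ 2) -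
      ((2 * r / Real.pi : ℝ) : ℂ) * ((((if Odd k then (1 : ℝ) / k else 0 : ℝ)) : ℂ) *
        ee r (n * (k : ℤ) ^ 2)) =
        ((ct r k - 2 * r / Real.pi * (if Odd k then (1 : ℝ) / k else 0) : ℝ) : ℂ) *
          ee r (n * (k : ℤ) ^ 2) := by
      push_cast
      ring
    rw [e, norm_mul, norm_ee, mul_one, Complex.norm_real, Real.norm_eq_abs]
    unfold ct
    split_ifs with ho
    · set y : ℝ := Real.pi * k / (2 * r) with hy
      have hy0 : 0 < y := by positivity
      have hy1 : y < Real.pi / 2 := by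
        rw [hy, div_lt_div_iff₀ (by positivity) (by norm_num)]
        nlinarith [Real.pi_pos]
      have e2 : 2 * (r : ℝ) / Real.pi * (1 / k) = 1 / y := by
        rw [hy]; field_simp
      rw [e2]
      exact cot_bound hy0 hy1
    · simp
  refine (sum_le_sum h1).trans ?_
  simp only [sum_const, Nat.card_Icc, nsmul_eq_mul, mul_one]
  exact_mod_cast (by omega)

lemma et_zero (r : ℕ) : et 0 r = ((oh (r - 1) : ℝ) : ℂ) := by
  unfold et oh
  rw [Complex.ofReal_sum]
  refine sum_congr rfl fun k _ => ?_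
  rw [zero_mul, ee_zero, mul_one]

lemma et_neg (n : ℤ) (r : ℕ) : et (-n) r = (starRingEnd ℂ) (et n r) := by
  unfold et
  rw [map_sum]
  refine sum_congr rfl fun k _ => ?_
  rw [map_mul, Complex.conj_ofReal, ← ee_neg]
  congr 2
  ring

lemma norm_et_le (n : ℤ) (r : ℕ) (hr : 2 ≤ r) : ‖et n r‖ ≤ 1 + Real.log r := by
  unfold et
  refine (norm_sum_le _ _).trans ?_
  have h1 := (harmonic_bounds r hr).2
  rw [add_comm] at h1
  refine le_trans (sum_le_sum fun k hk => ?_) h1
  rw [mem_Icc] at hk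
  rw [norm_mul, norm_ee, mul_one, Complex.norm_real, Real.norm_eq_abs]
  split_ifs
  · rw [abs_of_nonneg (by positivity)]
  · rw [abs_zero]; positivity

end Pool.Agent.Lib.MP_fcdc94_gt.Log
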