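import Mathlib
import Pool.Agent.Lib.MP_fcdc94_gt.Log.OddSum

set_option autoImplicit false

/-!
`∑_{k odd < r} exp (π i n k² / 2r) / k = (log r) / 4 + O(1)` for `n ≠ 0`.
-/

open Finset Complex
open Pool.Agent.Lib.MP_6bc78b_nt (ei norm_ei vdc2)

namespace Pool.Agent.Lib.MP_fcdc94_gt.Log

lemma abel_id (w : ℕ → ℂ) (e : ℕ → ℂ) (M L : ℕ) (hML : M ≤ L) :
    ∑ m ∈ Ico M L, w m * e m = w L * ∑ m ∈ Ico M L, e m +
      ∑ m ∈ Ico M L, (w m - w (m + 1)) * ∑ i ∈ Ico M (m + 1), e i := by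
  induction L, hML using Nat.le_induction with
  | base => simp
  | succ L hL ih =>
    rw [sum_Ico_succ_top hL, sum_Ico_succ_top hL, sum_Ico_succ_top hL, ih, sum_Ico_succ_top hL]
    ring

lemma abel_id_real (w : ℕ → ℝ) (α β : ℝ) (M L : ℕ) (hML : M ≤ L) :
    w L * (α * (L - M) + β) + ∑ m ∈ Ico M L, (w m - w (m + 1)) * (α * (m + 1 - M) + β) =
      α * ∑ m ∈ Ico M L, w m + β * w M := by
  induction L, hML using Nat.le_induction with
  | base => simp; ring
  | succ L hL ih =>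
    rw [sum_Ico_succ_top hL, sum_Ico_succ_top hL]
    push_cast
    linear_combination ih

lemma abel_bound (w : ℕ → ℝ) (hw : ∀ m, 0 ≤ w m) (hdec : ∀ m, w (m + 1) ≤ w m) (e : ℕ → ℂ)
    (M L : ℕ) (hML : M ≤ L) (α β : ℝ)
    (hS : ∀ j, M ≤ j → j ≤ L → ‖∑ m ∈ Ico M j, e m‖ ≤ α * (j - M) + β) :
    ‖∑ m ∈ Ico M L, ((w m : ℝ) : ℂ) * e m‖ ≤ α * ∑ m ∈ Ico M L, w m + β * w M := by
  rw [abel_id (fun m => ((w m : ℝ) : ℂ)) e M L hML, ← abel_id_real w α β M L hML]
  refine (norm_add_le _ _).trans (add_le_add ?_ ?_)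
  · rw [norm_mul, Complex.norm_real, Real.norm_of_nonneg (hw L)]
    exact mul_le_mul_of_nonneg_left (hS L hML le_rfl) (hw L)
  · refine (norm_sum_le _ _).trans (sum_le_sum fun m hm => ?_)
    rw [mem_Ico] at hm
    rw [norm_mul, ← Complex.ofReal_sub, Complex.norm_real,
      Real.norm_of_nonneg (sub_nonneg.2 (hdec m))]
    have := hS (m + 1) (by omega) (by omega)
    push_cast at this
    exact mul_le_mul_of_nonneg_left this (sub_nonneg.2 (hdec m))

/-- weights -/
noncomputable def wt (m : ℕ) : ℝ := 1 / (2 * m + 1)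

lemma wt_nonneg (m : ℕ) : 0 ≤ wt m := by unfold wt; positivity

lemma wt_dec (m : ℕ) : wt (m + 1) ≤ wt m := by
  unfold wt
  apply one_div_le_one_div_of_le (by positivity)
  push_cast
  linarith

lemma oh_as_wt (M : ℕ) : ∑ m ∈ range M, wt m = oh (2 * M) := by
  unfold oh wt
  rw [← sum_filter]
  refine sum_nbij' (fun m => 2 * m + 1) (fun k => k / 2) ?_ ?_ ?_ ?_ ?_
  · intro m hm
    simp only [mem_range] at hm
    simp only [mem_filter, mem_Icc, Nat.odd_iff]
    omega
  · intro k hk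
    simp only [mem_filter, mem_Icc, Nat.odd_iff] at hk
    simp only [mem_range]
    omega
  · intro m hm
    omega
  · intro k hk
    simp only [mem_filter, mem_Icc, Nat.odd_iff] at hk
    omega
  · intro m hm
    push_cast
    rfl

lemma et_as_wt (n : ℤ) (r : ℕ) (hr : 2 ≤ r) : et n r =
    ∑ m ∈ range (r / 2), ((wt m : ℝ) : ℂ) * ei (Real.pi * n * (2 * m + 1) ^ 2 / (2 * r)) := by
  unfold et
  have h1 : ∀ k : ℕ, ((if Odd k then (1 : ℝ) / k else 0 : ℝ) : ℂ) * ee r (n * (k : ℤ) ^ 2) =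
      if Odd k then ((1 / k : ℝ) : ℂ) * ee r (n * (k : ℤ) ^ 2) else 0 := by
    intro k
    split_ifs <;> simp
  rw [sum_congr rfl (fun k _ => h1 k), ← sum_filter]
  refine sum_nbij' (fun k => k / 2) (fun m => 2 * m + 1) ?_ ?_ ?_ ?_ ?_
  · intro k hk
    simp only [mem_filter, mem_Icc, Nat.odd_iff] at hk
    simp only [mem_range]
    omega
  · intro m hm
    simp only [mem_range] at hm
    simp only [mem_filter, mem_Icc, Nat.odd_iff]
    omega
  · intro k hk
    simp only [mem_filter, mem_Icc, Nat.odd_iff] at hk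
    omega
  · intro m hm
    omega
  · intro k hk
    simp only [mem_filter, mem_Icc, Nat.odd_iff] at hk
    obtain ⟨m, rfl⟩ : ∃ m, k = 2 * m + 1 := ⟨k / 2, by omega⟩
    have e : (2 * m + 1) / 2 = m := by omega
    rw [e]
    unfold wt ee ei
    congr 1
    · push_cast
      rfl
    · congr 1
      push_cast
      ring

lemma ei_sub_one_le (x : ℝ) : ‖ei x - 1‖ ≤ |x| := by
  have := norm_exp_sub_one_le x
  exact this

/-- The head. -/
lemma head_bound (n r M : ℕ) (hr : 2 ≤ r) (hM : M * M ≤ r) :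
    ‖∑ m ∈ range M, ((wt m : ℝ) : ℂ) * ei (Real.pi * n * (2 * m + 1) ^ 2 / (2 * r)) -
      ((∑ m ∈ range M, wt m : ℝ) : ℂ)‖ ≤ Real.pi * n := by
  have hrR : (0 : ℝ) < r := by exact_mod_cast (by omega : 0 < r)
  rw [Complex.ofReal_sum, ← sum_sub_distrib]
  refine (norm_sum_le _ _).trans ?_
  have h1 : ∀ m ∈ range M, ‖((wt m : ℝ) : ℂ) * ei (Real.pi * n * (2 * m + 1) ^ 2 / (2 * r)) -
      ((wt m : ℝ) : ℂ)‖ ≤ Real.pi * n / r * M := by
    intro m hm
    rw [mem_range] at hm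
    have hm' : (m : ℝ) + 1 ≤ M := by exact_mod_cast hm
    have e : ((wt m : ℝ) : ℂ) * ei (Real.pi * n * (2 * m + 1) ^ 2 / (2 * r)) - ((wt m : ℝ) : ℂ) =
        ((wt m : ℝ) : ℂ) * (ei (Real.pi * n * (2 * m + 1) ^ 2 / (2 * r)) - 1) := by ring
    rw [e, norm_mul, Complex.norm_real, Real.norm_of_nonneg (wt_nonneg m)]
    have h2 := ei_sub_one_le (Real.pi * n * (2 * m + 1) ^ 2 / (2 * r))
    rw [abs_of_nonneg (by positivity)] at h2
    calc wt m * ‖ei (Real.pi * n * (2 * m + 1) ^ 2 / (2 * r)) - 1‖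
        ≤ wt m * (Real.pi * n * (2 * m + 1) ^ 2 / (2 * r)) :=
          mul_le_mul_of_nonneg_left h2 (wt_nonneg m)
      _ = Real.pi * n / r * ((2 * m + 1) / 2) := by
          unfold wt
          field_simp
      _ ≤ Real.pi * n / r * M := mul_le_mul_of_nonneg_left (by linarith) (by positivity)
  refine (sum_le_sum h1).trans ?_
  rw [sum_const, card_range, nsmul_eq_mul]
  have hM' : (M : ℝ) * M ≤ r := by exact_mod_cast hM
  calc (M : ℝ) * (Real.pi * n / r * M) = Real.pi * n * ((M * M) / r) := by ring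
    _ ≤ Real.pi * n * 1 := mul_le_mul_of_nonneg_left ((div_le_one hrR).2 hM') (by positivity)
    _ = _ := mul_one _

lemma log_le_two_sqrt (r : ℕ) (hr : 2 ≤ r) : Real.log r ≤ 2 * Real.sqrt r := by
  have hrR : (0 : ℝ) < r := by exact_mod_cast (by omega : 0 < r)
  have h1 : Real.log r = 2 * Real.log (Real.sqrt r) := by
    rw [Real.log_sqrt hrR.le]; ring
  rw [h1]
  have := Real.log_le_self (Real.sqrt_nonneg r)
  linarith

/-- The tail. -/
lemma tail_bound (n r M : ℕ) (hn : 1 ≤ n) (hr : 2 ≤ r) (hM : M ≤ r / 2)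
    (hM2 : (r : ℝ) ≤ (2 * M + 1) ^ 2) (hbig : 4 * Real.pi * n ≤ r) :
    ‖∑ m ∈ Ico M (r / 2), ((wt m : ℝ) : ℂ) * ei (Real.pi * n * (2 * m + 1) ^ 2 / (2 * r))‖ ≤
      6 * Real.sqrt (4 * Real.pi * n) + 24 := by
  have hrR : (0 : ℝ) < r := by exact_mod_cast (by omega : 0 < r)
  have hr1 : (1 : ℝ) ≤ r := by exact_mod_cast (by omega : 1 ≤ r)
  have hnR : (1 : ℝ) ≤ n := by exact_mod_cast hn
  have hpi := Real.pi_gt_three
  set μ : ℝ := 4 * Real.pi * n / r with hμ
  have hμ0 : 0 < μ := by positivity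
  have hμ1 : μ ≤ 1 := by rw [hμ, div_le_one hrR]; exact hbig
  have hsq : 0 < Real.sqrt μ := Real.sqrt_pos.2 hμ0
  have hsqq : Real.sqrt μ * Real.sqrt μ = μ := Real.mul_self_sqrt hμ0.le
  have hS : ∀ j, M ≤ j → j ≤ r / 2 → ‖∑ m ∈ Ico M j,
      ei (Real.pi * n * (2 * m + 1) ^ 2 / (2 * r))‖ ≤ 2 * Real.sqrt μ * (j - M) + 24 / Real.sqrt μ := by
    intro j hj hj2
    rcases hj.eq_or_lt with h | h
    · subst h
      simp
      positivity
    · have hd : ∀ m : ℕ, (Real.pi * n * (2 * ((m + 2 : ℕ) : ℝ) + 1) ^ 2 / (2 * r) -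
          Real.pi * n * (2 * ((m + 1 : ℕ) : ℝ) + 1) ^ 2 / (2 * r)) -
          (Real.pi * n * (2 * ((m + 1 : ℕ) : ℝ) + 1) ^ 2 / (2 * r) -
          Real.pi * n * (2 * (m : ℝ) + 1) ^ 2 / (2 * r)) = μ := by
        intro m
        rw [hμ]
        push_cast
        field_simp
        ring
      have h1 := vdc2 (fun m => Real.pi * n * (2 * (m : ℝ) + 1) ^ 2 / (2 * r)) M j h μ 1 hμ0 hμ1
        le_rfl (fun m _ _ => (hd m).ge) (fun m _ _ => by rw [one_mul]; exact (hd m).le)
      refine h1.trans (le_of_eq ?_)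
      rw [one_mul]
      have e : μ / Real.sqrt μ = Real.sqrt μ := by
        rw [div_eq_iff hsq.ne']; exact hsqq.symm
      calc (μ * ((j : ℝ) - M) / 6 + 2) * (12 / Real.sqrt μ) =
          2 * (μ / Real.sqrt μ) * ((j : ℝ) - M) + 24 / Real.sqrt μ := by ring
        _ = _ := by rw [e]
  refine (abel_bound wt wt_nonneg wt_dec _ M (r / 2) hM _ _ hS).trans ?_
  have h1 : ∑ m ∈ Ico M (r / 2), wt m ≤ 1 + Real.log r := by
    have h2 : ∑ m ∈ Ico M (r / 2), wt m ≤ ∑ m ∈ range (r / 2), wt m := by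
      apply sum_le_sum_of_subset_of_nonneg
      · intro m hm
        rw [mem_Ico] at hm
        exact mem_range.2 hm.2
      · intro m _ _
        exact wt_nonneg m
    refine h2.trans ?_
    rw [oh_as_wt]
    have h3 : oh (2 * (r / 2)) ≤ ∑ k ∈ Icc 1 r, (1 : ℝ) / k := by
      unfold oh
      refine le_trans (sum_le_sum (g := fun k : ℕ => (1 : ℝ) / k) fun k _ => ?_)
        (sum_le_sum_of_subset_of_nonneg (Icc_subset_Icc_right (by omega)) fun k _ _ => by positivity)
      split_ifs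
      · exact le_rfl
      · positivity
    exact h3.trans (H_bounds r).2
  have hlog := log_le_two_sqrt r hr
  have hsr : 1 ≤ Real.sqrt r := Real.one_le_sqrt.2 hr1
  have e1 : Real.sqrt μ = Real.sqrt (4 * Real.pi * n) / Real.sqrt r := by
    rw [hμ, Real.sqrt_div (by positivity)]
  have hs4 : 1 ≤ Real.sqrt (4 * Real.pi * n) := Real.one_le_sqrt.2 (by nlinarith)
  have h4 : 2 * Real.sqrt μ * ∑ m ∈ Ico M (r / 2), wt m ≤ 6 * Real.sqrt (4 * Real.pi * n) := by
    calc 2 * Real.sqrt μ * ∑ m ∈ Ico M (r / 2), wt m ≤ 2 * Real.sqrt μ * (3 * Real.sqrt r) :=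
          mul_le_mul_of_nonneg_left (by linarith) (by positivity)
      _ = 6 * Real.sqrt (4 * Real.pi * n) := by
          rw [e1]
          have : Real.sqrt r ≠ 0 := by positivity
          field_simp
          ring
  have h5 : 24 / Real.sqrt μ * wt M ≤ 24 := by
    have h6 : Real.sqrt r ≤ 2 * M + 1 := by
      rw [Real.sqrt_le_left (by positivity)]
      exact hM2
    have h7 : wt M ≤ 1 / Real.sqrt r := by
      unfold wt
      exact one_div_le_one_div_of_le (by positivity) h6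
    calc 24 / Real.sqrt μ * wt M ≤ 24 / Real.sqrt μ * (1 / Real.sqrt r) :=
          mul_le_mul_of_nonneg_left h7 (by positivity)
      _ = 24 / Real.sqrt (4 * Real.pi * n) := by
          rw [e1]
          have : Real.sqrt r ≠ 0 := by positivity
          field_simp
      _ ≤ 24 := by
          rw [div_le_iff₀ (by positivity)]
          linarith
  linarith

/-- The twisted sum for `n ≥ 1`. -/
theorem et_pos (n : ℕ) (hn : 1 ≤ n) : ∃ C : ℝ, ∀ r : ℕ, 2 ≤ r →
    ‖et n r - ((Real.log r / 4 : ℝ) : ℂ)‖ ≤ C := by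
  have hpi := Real.pi_gt_three
  have hnR : (1 : ℝ) ≤ n := by exact_mod_cast hn
  refine ⟨Real.pi * n + 4 + (6 * Real.sqrt (4 * Real.pi * n) + 24) + (1 + 2 * (4 * Real.pi * n)),
    fun r hr => ?_⟩
  have hrR : (0 : ℝ) < r := by exact_mod_cast (by omega : 0 < r)
  have hlog0 : 0 ≤ Real.log r := Real.log_nonneg (by exact_mod_cast (by omega : 1 ≤ r))
  rcases lt_or_ge (r : ℝ) (4 * Real.pi * n) with hsmall | hbig
  · have h1 := norm_et_le n r hr
    have h2 : Real.log r ≤ r := Real.log_le_self hrR.le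
    have h3 : ‖((Real.log r / 4 : ℝ) : ℂ)‖ ≤ Real.log r := by
      rw [Complex.norm_real, Real.norm_of_nonneg (by positivity)]
      linarith
    have h4 := norm_sub_le (et n r) ((Real.log r / 4 : ℝ) : ℂ)
    have h5 : 0 ≤ 6 * Real.sqrt (4 * Real.pi * n) := by positivity
    have h6 : 0 ≤ Real.pi * n := by positivity
    linarith
  · set M := Nat.sqrt r with hM
    have hM1 : M * M ≤ r := Nat.sqrt_le r
    have hM2 : r < (M + 1) * (M + 1) := Nat.lt_succ_sqrt r
    have hM3 : M ≤ r / 2 := by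
      rcases Nat.lt_or_ge M 2 with h | h
      · have : 1 ≤ r / 2 := by omega
        omega
      · have : 2 * M ≤ M * M := Nat.mul_le_mul_right M h
        omega
    have hM4 : 1 ≤ M := by
      rw [hM]
      exact Nat.sqrt_pos.2 (by omega)
    have hM1R : (M : ℝ) * M ≤ r := by exact_mod_cast hM1
    have hM2R : (r : ℝ) < (M + 1) * (M + 1) := by exact_mod_cast hM2
    have hM4R : (1 : ℝ) ≤ M := by exact_mod_cast hM4
    have t1 := head_bound n r M hr hM1
    have t2 := tail_bound n r M hn hr hM3 (by nlinarith) hbig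
    have t3 : |∑ m ∈ range M, wt m - Real.log r / 4| ≤ 4 := by
      rw [oh_as_wt]
      have h1 := oh_bound (2 * M) (by omega)
      have h2 : (1 / 2) * Real.log r ≤ Real.log (((2 * M : ℕ) : ℝ) + 1) := by
        have e : (1 / 2) * Real.log r = Real.log (Real.sqrt r) := by
          rw [Real.log_sqrt hrR.le]; ring
        rw [e]
        apply Real.log_le_log (Real.sqrt_pos.2 hrR)
        rw [Real.sqrt_le_left (by positivity)]
        push_cast
        nlinarith
      have h3 : Real.log (((2 * M : ℕ) : ℝ) + 1) ≤ (1 / 2) * Real.log r + 2 := by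
        have e : (1 / 2) * Real.log r = Real.log (Real.sqrt r) := by
          rw [Real.log_sqrt hrR.le]; ring
        have e2 : Real.log 3 ≤ 2 := by
          have := Real.log_le_sub_one_of_pos (show (0 : ℝ) < 3 by norm_num)
          linarith
        have hs : (M : ℝ) ≤ Real.sqrt r := by
          apply Real.le_sqrt_of_sq_le
          nlinarith
        calc Real.log (((2 * M : ℕ) : ℝ) + 1) ≤ Real.log (3 * Real.sqrt r) := by
              apply Real.log_le_log (by positivity)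
              push_cast
              nlinarith
          _ = Real.log 3 + Real.log (Real.sqrt r) :=
              Real.log_mul (by norm_num) (Real.sqrt_pos.2 hrR).ne'
          _ ≤ _ := by rw [e]; linarith
      rw [abs_le] at h1 ⊢
      constructor <;> linarith [h1.1, h1.2]
    have e1 : et n r = ∑ m ∈ range M, ((wt m : ℝ) : ℂ) * ei (Real.pi * n * (2 * m + 1) ^ 2 / (2 * r)) +
        ∑ m ∈ Ico M (r / 2), ((wt m : ℝ) : ℂ) * ei (Real.pi * n * (2 * m + 1) ^ 2 / (2 * r)) := by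
      rw [et_as_wt n r hr, ← sum_range_add_sum_Ico _ hM3]
      simp only [Int.cast_natCast]
    have e2 : et n r - ((Real.log r / 4 : ℝ) : ℂ) =
        (∑ m ∈ range M, ((wt m : ℝ) : ℂ) * ei (Real.pi * n * (2 * m + 1) ^ 2 / (2 * r)) -
          ((∑ m ∈ range M, wt m : ℝ) : ℂ)) +
        ((∑ m ∈ range M, wt m - Real.log r / 4 : ℝ) : ℂ) +
        ∑ m ∈ Ico M (r / 2), ((wt m : ℝ) : ℂ) * ei (Real.pi * n * (2 * m + 1) ^ 2 / (2 * r)) := by
      rw [e1, Complex.ofReal_sub]
      ring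
    rw [e2]
    have t3' : ‖((∑ m ∈ range M, wt m - Real.log r / 4 : ℝ) : ℂ)‖ ≤ 4 := by
      rw [Complex.norm_real, Real.norm_eq_abs]
      exact t3
    refine (norm_add_le _ _).trans ?_
    have t4 := norm_add_le (∑ m ∈ range M, ((wt m : ℝ) : ℂ) *
      ei (Real.pi * n * (2 * m + 1) ^ 2 / (2 * r)) - ((∑ m ∈ range M, wt m : ℝ) : ℂ))
      ((∑ m ∈ range M, wt m - Real.log r / 4 : ℝ) : ℂ)
    have h6 : 0 ≤ Real.pi * n := by positivity
    linarith

/-- The leading constant: `1` for Euler number zero, `1/2` otherwise. -/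
noncomputable def kap (n : ℤ) : ℝ := if n = 0 then 1 else 1 / 2

theorem et_asymp (n : ℤ) : ∃ C : ℝ, ∀ r : ℕ, 2 ≤ r →
    ‖et n r - ((kap n * Real.log r / 2 : ℝ) : ℂ)‖ ≤ C := by
  rcases lt_trichotomy n 0 with h | h | h
  · obtain ⟨C, hC⟩ := et_pos (-n).toNat (by omega)
    refine ⟨C, fun r hr => ?_⟩
    have e : n = -(((-n).toNat : ℕ) : ℤ) := by omega
    have h1 := hC r hr
    have h2 : et n r = (starRingEnd ℂ) (et (((-n).toNat : ℕ) : ℤ) r) := by
      conv_lhs => rw [e]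
      exact et_neg _ r
    have h3 : kap n = 1 / 2 := if_neg h.ne
    rw [h2, h3]
    have h4 : (((1 / 2) * Real.log r / 2 : ℝ) : ℂ) =
        (starRingEnd ℂ) (((Real.log r / 4 : ℝ) : ℂ)) := by
      rw [Complex.conj_ofReal]
      congr 1
      ring
    rw [h4, ← map_sub, RCLike.norm_conj]
    exact h1
  · subst h
    refine ⟨2, fun r hr => ?_⟩
    have h3 : kap 0 = 1 := if_pos rfl
    rw [et_zero, h3, ← Complex.ofReal_sub, Complex.norm_real, Real.norm_eq_abs]
    have h1 := oh_bound (r - 1) (by omega)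
    have e : ((r - 1 : ℕ) : ℝ) + 1 = r := by
      rw [Nat.cast_sub (by omega)]
      push_cast; ring
    rw [e] at h1
    have e2 : (1 : ℝ) * Real.log r / 2 = 1 / 2 * Real.log r := by ring
    rw [e2]
    exact h1
  · obtain ⟨C, hC⟩ := et_pos n.toNat (by omega)
    refine ⟨C, fun r hr => ?_⟩
    have e : n = ((n.toNat : ℕ) : ℤ) := by omega
    have h1 := hC r hr
    rw [← e] at h1
    have h3 : kap n = 1 / 2 := if_neg h.ne'
    have h4 : (1 / 2 : ℝ) * Real.log r / 2 = Real.log r / 4 := by ring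
    rw [h3, h4]
    exact h1

end Pool.Agent.Lib.MP_fcdc94_gt.Log
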