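import Mathlib
import Pool.Agent.Lib.MP_fcdc94_gt.Log.Twist
import Pool.Agent.Lib.MP_fcdc94_gt.Log.Fail

set_option autoImplicit false

/-!
The asymptotic expansion fails for the Seifert manifolds over `RP²(2, 2)`.
-/

open Finset Complex Filter Topology

namespace Pool.Agent.Lib.MP_fcdc94_gt.Log

lemma low_of (Y : ℕ → ℂ) (s κ C : ℝ) (hκ : 0 < κ)
    (h : ∀ r : ℕ, 2 ≤ r → |‖Y r‖ - κ * (r : ℝ) ^ s * Real.log r| ≤ C * (r : ℝ) ^ s) :
    Tendsto (fun r : ℕ => ‖Y r‖ * (r : ℝ) ^ (-s)) atTop atTop := by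
  have h1 : Tendsto (fun r : ℕ => κ * Real.log r - C) atTop atTop :=
    tendsto_atTop_add_const_right _ _ (tendsto_log_nat.const_mul_atTop hκ)
  refine tendsto_atTop_mono' _ ?_ h1
  filter_upwards [eventually_ge_atTop 2] with r hr
  have hr0 : (0 : ℝ) < r := by exact_mod_cast (by omega : 0 < r)
  have h2 := (abs_le.1 (h r hr)).1
  have h4 : (r : ℝ) ^ s * (r : ℝ) ^ (-s) = 1 := by
    rw [← Real.rpow_add hr0]; simp
  have h5 : 0 < (r : ℝ) ^ (-s) := Real.rpow_pos_of_pos hr0 _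
  calc κ * Real.log r - C = (κ * (r : ℝ) ^ s * Real.log r - C * (r : ℝ) ^ s) * (r : ℝ) ^ (-s) := by
        linear_combination (-(κ * Real.log r - C)) * h4
    _ ≤ ‖Y r‖ * (r : ℝ) ^ (-s) := mul_le_mul_of_nonneg_right (by linarith) h5.le

lemma up_of (Y : ℕ → ℂ) (s κ C : ℝ)
    (h : ∀ r : ℕ, 2 ≤ r → |‖Y r‖ - κ * (r : ℝ) ^ s * Real.log r| ≤ C * (r : ℝ) ^ s)
    (ε : ℝ) (hε : 0 < ε) :
    Tendsto (fun r : ℕ => ‖Y r‖ * (r : ℝ) ^ (-s - ε)) atTop (𝓝 0) := by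
  have h1 : Tendsto (fun r : ℕ => κ * (Real.log r / (r : ℝ) ^ ε) + C * (r : ℝ) ^ (-ε))
      atTop (𝓝 0) := by
    have t1 : Tendsto (fun r : ℕ => Real.log r / (r : ℝ) ^ ε) atTop (𝓝 0) := by
      have := (isLittleO_log_rpow_atTop hε).tendsto_div_nhds_zero.comp
        (tendsto_natCast_atTop_atTop (R := ℝ))
      simpa [Function.comp_def] using this
    have t2 := (tendsto_rpow_neg_nat (x := -ε) (by linarith))
    simpa using (t1.const_mul κ).add (t2.const_mul C)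
  refine tendsto_of_tendsto_of_tendsto_of_le_of_le' tendsto_const_nhds h1
    (Eventually.of_forall fun r => by positivity) ?_
  filter_upwards [eventually_ge_atTop 2] with r hr
  have hr0 : (0 : ℝ) < r := by exact_mod_cast (by omega : 0 < r)
  have h2 := (abs_le.1 (h r hr)).2
  have h4 : (r : ℝ) ^ s * (r : ℝ) ^ (-s - ε) = (r : ℝ) ^ (-ε) := by
    rw [← Real.rpow_add hr0]; congr 1; ring
  have h5 : 0 < (r : ℝ) ^ (-s - ε) := Real.rpow_pos_of_pos hr0 _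
  have h6 : Real.log r / (r : ℝ) ^ ε = Real.log r * (r : ℝ) ^ (-ε) := by
    rw [Real.rpow_neg hr0.le, div_eq_mul_inv]
  calc ‖Y r‖ * (r : ℝ) ^ (-s - ε) ≤ (κ * (r : ℝ) ^ s * Real.log r + C * (r : ℝ) ^ s) *
        (r : ℝ) ^ (-s - ε) := mul_le_mul_of_nonneg_right (by linarith) h5.le
    _ = _ := by
        rw [h6]
        linear_combination (κ * Real.log r + C) * h4

/-- **Leading term** of the invariant: `√r log r`. -/
theorem tree_asymp (n : ℤ) : ∃ C : ℝ, ∀ r : ℕ, 2 ≤ r →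
    ‖(ph n r)⁻¹ * treeSurgery n r -
      ((kap n * (Real.sqrt 2 / Real.pi) * Real.sqrt r * Real.log r : ℝ) : ℂ)‖ ≤
        C * Real.sqrt r := by
  obtain ⟨C1, hC1⟩ := et_asymp n
  have hpi := Real.pi_gt_three
  have hC10 : 0 ≤ C1 := (norm_nonneg _).trans (hC1 2 le_rfl)
  refine ⟨Real.sqrt 2 * (1 + C1), fun r hr => ?_⟩
  have hrR : (0 : ℝ) < r := by exact_mod_cast (by omega : 0 < r)
  have hph : ph n r ≠ 0 := by
    intro h
    have := norm_ph n r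
    rw [h, norm_zero] at this
    exact zero_ne_one this
  have h1 := ct_sum_bound n r hr
  have h2 := hC1 r hr
  set B := ∑ k ∈ Icc 1 (r - 1), ((ct r k : ℝ) : ℂ) * ee r (n * (k : ℤ) ^ 2) with hB
  have e0 : Real.sqrt (2 / r) * r = Real.sqrt 2 * Real.sqrt r := by
    rw [Real.sqrt_div (by norm_num)]
    have : Real.sqrt r * Real.sqrt r = r := Real.mul_self_sqrt hrR.le
    have hs : Real.sqrt r ≠ 0 := (Real.sqrt_pos.2 hrR).ne'
    field_simp
    linarith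
  have e1 : (ph n r)⁻¹ * treeSurgery n r -
      ((kap n * (Real.sqrt 2 / Real.pi) * Real.sqrt r * Real.log r : ℝ) : ℂ) =
      ((Real.sqrt (2 / r) : ℝ) : ℂ) * ((B - ((2 * r / Real.pi : ℝ) : ℂ) * et n r) +
        ((2 * r / Real.pi : ℝ) : ℂ) * (et n r - ((kap n * Real.log r / 2 : ℝ) : ℂ))) := by
    rw [tree_exact n r hr, ← hB]
    have e2 : (ph n r)⁻¹ * (ph n r * ((Real.sqrt (2 / r) : ℝ) : ℂ) * B) =
        ((Real.sqrt (2 / r) : ℝ) : ℂ) * B := by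
      field_simp
    rw [e2]
    have e3 : kap n * (Real.sqrt 2 / Real.pi) * Real.sqrt r * Real.log r =
        Real.sqrt (2 / r) * (2 * r / Real.pi * (kap n * Real.log r / 2)) := by
      calc kap n * (Real.sqrt 2 / Real.pi) * Real.sqrt r * Real.log r =
          (Real.sqrt 2 * Real.sqrt r) * (kap n * Real.log r / Real.pi) := by ring
        _ = (Real.sqrt (2 / r) * r) * (kap n * Real.log r / Real.pi) := by rw [e0]
        _ = _ := by ring
    rw [e3]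
    push_cast
    ring
  rw [e1, norm_mul, Complex.norm_real, Real.norm_of_nonneg (Real.sqrt_nonneg _)]
  have h3 : ‖(B - ((2 * r / Real.pi : ℝ) : ℂ) * et n r) +
        ((2 * r / Real.pi : ℝ) : ℂ) * (et n r - ((kap n * Real.log r / 2 : ℝ) : ℂ))‖ ≤
        r * (1 + C1) := by
    refine (norm_add_le _ _).trans ?_
    rw [norm_mul, Complex.norm_real, Real.norm_of_nonneg (by positivity)]
    have h4 : 2 * (r : ℝ) / Real.pi ≤ r := by
      rw [div_le_iff₀ (by positivity)]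
      nlinarith
    have h5 : 2 * (r : ℝ) / Real.pi * ‖et n r - ((kap n * Real.log r / 2 : ℝ) : ℂ)‖ ≤ r * C1 :=
      mul_le_mul h4 h2 (norm_nonneg _) hrR.le
    linarith
  calc Real.sqrt (2 / r) * ‖(B - ((2 * r / Real.pi : ℝ) : ℂ) * et n r) +
        ((2 * r / Real.pi : ℝ) : ℂ) * (et n r - ((kap n * Real.log r / 2 : ℝ) : ℂ))‖
      ≤ Real.sqrt (2 / r) * (r * (1 + C1)) := mul_le_mul_of_nonneg_left h3 (Real.sqrt_nonneg _)
    _ = (Real.sqrt (2 / r) * r) * (1 + C1) := by ring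
    _ = Real.sqrt 2 * (1 + C1) * Real.sqrt r := by rw [e0]; ring

lemma kap_pos (n : ℤ) : 0 < kap n := by
  unfold kap
  split_ifs <;> norm_num

lemma tree_norm (n : ℤ) (u : ℕ → ℂ) (hu : ∀ r, ‖u r‖ = 1) : ∃ C : ℝ, ∀ r : ℕ, 2 ≤ r →
    |‖u r * treeSurgery n r‖ - (kap n * (Real.sqrt 2 / Real.pi)) * (r : ℝ) ^ (1 / 2 : ℝ) *
      Real.log r| ≤ C * (r : ℝ) ^ (1 / 2 : ℝ) := by
  obtain ⟨C, hC⟩ := tree_asymp n
  refine ⟨C, fun r hr => ?_⟩
  have hlog0 : 0 ≤ Real.log r := Real.log_nonneg (by exact_mod_cast (by omega : 1 ≤ r))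
  have hk := kap_pos n
  have h1 := hC r hr
  have e1 : ‖u r * treeSurgery n r‖ = ‖(ph n r)⁻¹ * treeSurgery n r‖ := by
    rw [norm_mul, norm_mul, hu, norm_inv, norm_ph, inv_one]
  have e2 : (kap n * (Real.sqrt 2 / Real.pi)) * (r : ℝ) ^ (1 / 2 : ℝ) * Real.log r =
      ‖((kap n * (Real.sqrt 2 / Real.pi) * Real.sqrt r * Real.log r : ℝ) : ℂ)‖ := by
    rw [Complex.norm_real, Real.norm_of_nonneg (by positivity), Real.sqrt_eq_rpow r]
  rw [e1, e2, ← Real.sqrt_eq_rpow]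
  exact (abs_norm_sub_norm_le _ _).trans h1

/-- No finite sum of functions `b exp (2 π i r c) r ^ s` is within `O(√r)` of the invariant. -/
theorem tree_not_approx (n : ℤ) (u : ℕ → ℂ) (hu : ∀ r, ‖u r‖ = 1) (N : ℕ) (b : Fin N → ℂ)
    (c s : Fin N → ℝ) (C : ℝ) :
    ¬ ∀ r : ℕ, 2 ≤ r → ‖u r * treeSurgery n r -
      ∑ i, b i * cexp (2 * Real.pi * I * (r * c i)) * (((r : ℝ) ^ (s i) : ℝ) : ℂ)‖ ≤
        C * (r : ℝ) ^ (1 / 2 : ℝ) := by
  intro h
  obtain ⟨C', hC'⟩ := tree_norm n u hu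
  have hκ : 0 < kap n * (Real.sqrt 2 / Real.pi) := mul_pos (kap_pos n) (by positivity)
  refine not_approx (fun i => cexp (2 * Real.pi * I * c i)) (fun i => ?_) s b
    (fun r => u r * treeSurgery n r) (1 / 2) (low_of _ _ _ _ hκ hC') (up_of _ _ _ _ hC') C ?_
  · have : (2 * Real.pi * I * c i : ℂ) = ((2 * Real.pi * c i : ℝ) : ℂ) * I := by push_cast; ring
    rw [this, Complex.norm_exp_ofReal_mul_I]
  · filter_upwards [eventually_ge_atTop 2] with r hr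
    have h1 := h r hr
    have e : ∀ i, cexp (2 * Real.pi * I * c i) ^ r = cexp (2 * Real.pi * I * (r * c i)) := by
      intro i
      rw [← Complex.exp_nat_mul]
      congr 1
      ring
    simp only [e]
    exact h1

theorem tree_not_bound (n : ℤ) (u : ℕ → ℂ) (hu : ∀ r, ‖u r‖ = 1) (X : Expansion) (δ : ℝ)
    (E : ℕ) (hE : X.top - (E + 1) * δ ≤ 1 / 2) :
    ¬ X.Bound δ (fun r => u r * treeSurgery n r) E := by
  rintro ⟨C, hC⟩
  obtain ⟨C', hC'⟩ := tree_norm n u hu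
  have hκ : 0 < kap n * (Real.sqrt 2 / Real.pi) := mul_pos (kap_pos n) (by positivity)
  refine not_approx (ι := Fin (X.m + 1) × Fin (E + 1)) (fun p => X.z p.1) (fun p => X.norm_z p.1)
    (fun p => X.d p.1 - (p.2 : ℕ) * δ) (fun p => X.coeff p.1 p.2)
    (fun r => u r * treeSurgery n r) (1 / 2) (low_of _ _ _ _ hκ hC') (up_of _ _ _ _ hC') |C| ?_
  filter_upwards [eventually_ge_atTop 2] with r hr
  have hr1 : (1 : ℝ) ≤ r := by exact_mod_cast (by omega : 1 ≤ r)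
  have h1 := hC r hr
  rw [X.S_eq δ E r hr] at h1
  refine h1.trans ?_
  calc C * (r : ℝ) ^ (X.top - (E + 1) * δ) ≤ |C| * (r : ℝ) ^ (X.top - (E + 1) * δ) :=
        mul_le_mul_of_nonneg_right (le_abs_self C) (by positivity)
    _ ≤ |C| * (r : ℝ) ^ (1 / 2 : ℝ) :=
        mul_le_mul_of_nonneg_left (Real.rpow_le_rpow_of_exponent_le hr1 hE) (abs_nonneg C)

theorem tree_fail (n : ℤ) (u : ℕ → ℂ) (hu : ∀ r, ‖u r‖ = 1) (X : Expansion) (δ : ℝ)
    (hδ : 0 < δ) : ¬ ∀ E, X.Bound δ (fun r => u r * treeSurgery n r) E := by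
  intro h
  obtain ⟨E, hE⟩ := exists_nat_gt ((X.top - 1 / 2) / δ)
  rw [div_lt_iff₀ hδ] at hE
  refine tree_not_bound n u hu X δ E ?_ (h E)
  nlinarith

/-- The exact value for the Hantzsche-Wendt manifold. -/
theorem hw_exact (r : ℕ) (hr : 2 ≤ r) : treeSurgery 0 r =
    (((-1) ^ r * Real.sqrt (2 / r) *
      ∑ k ∈ (Icc 1 (r - 1)).filter Odd, Real.cot (Real.pi * k / (2 * r)) : ℝ) : ℂ) := by
  rw [tree_exact 0 r hr, ph_zero]
  have h1 : ∑ k ∈ Icc 1 (r - 1), ((ct r k : ℝ) : ℂ) * ee r (0 * (k : ℤ) ^ 2) =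
      ((∑ k ∈ (Icc 1 (r - 1)).filter Odd, Real.cot (Real.pi * k / (2 * r)) : ℝ) : ℂ) := by
    rw [sum_filter, Complex.ofReal_sum]
    refine sum_congr rfl fun k _ => ?_
    rw [zero_mul, ee_zero, mul_one]
    rfl
  rw [h1]
  push_cast
  ring

end Pool.Agent.Lib.MP_fcdc94_gt.Log
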