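import Mathlib
import Pool.Agent.Lib.MP_fcdc94_gt.Log.TreeFail

set_option autoImplicit false

/-!
Failure already at order `0` when all leading coefficients are positive.
-/

open Finset Complex Filter Topology

namespace Pool.Agent.Lib.MP_fcdc94_gt.Log

theorem not_bound_zero (X : Expansion) (hv : ∀ j, 0 < X.v j) (δ : ℝ) (hδ : 0 < δ)
    (Y : ℕ → ℂ) (s : ℝ)
    (hlow : Tendsto (fun r : ℕ => ‖Y r‖ * (r : ℝ) ^ (-s)) atTop atTop)
    (hup : ∀ ε : ℝ, 0 < ε → Tendsto (fun r : ℕ => ‖Y r‖ * (r : ℝ) ^ (-s - ε)) atTop (𝓝 0)) :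
    ¬ X.Bound δ Y 0 := by
  classical
  rintro ⟨C, hC⟩
  have hb : ∀ r : ℕ, 2 ≤ r →
      ‖Y r - ∑ j, X.coeff j 0 * X.z j ^ r * (((r : ℝ) ^ (X.d j) : ℝ) : ℂ)‖ ≤
        |C| * (r : ℝ) ^ (X.top - δ) := by
    intro r hr
    have h1 := hC r hr
    rw [X.S_eq δ 0 r hr] at h1
    have e1 : ∑ p : Fin (X.m + 1) × Fin (0 + 1), X.coeff p.1 p.2 * X.z p.1 ^ r *
        (((r : ℝ) ^ (X.d p.1 - (p.2 : ℕ) * δ) : ℝ) : ℂ) =
        ∑ j, X.coeff j 0 * X.z j ^ r * (((r : ℝ) ^ (X.d j) : ℝ) : ℂ) := by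
      rw [Fintype.sum_prod_type]
      refine sum_congr rfl fun j _ => ?_
      simp
    rw [e1] at h1
    refine h1.trans ?_
    have e2 : X.top - ((0 : ℕ) + 1) * δ = X.top - δ := by push_cast; ring
    rw [e2]
    exact mul_le_mul_of_nonneg_right (le_abs_self C) (by positivity)
  by_cases htop : X.top ≤ s
  · refine not_approx X.z X.norm_z X.d (fun j => X.coeff j 0) Y s hlow hup |C| ?_
    filter_upwards [eventually_ge_atTop 2] with r hr
    have hr1 : (1 : ℝ) ≤ r := by exact_mod_cast (by omega : 1 ≤ r)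
    refine (hb r hr).trans (mul_le_mul_of_nonneg_left ?_ (abs_nonneg C))
    exact Real.rpow_le_rpow_of_exponent_le hr1 (by linarith)
  · push Not at htop
    have hlim : Tendsto (fun r : ℕ => (((r : ℝ) ^ (-X.top) : ℝ) : ℂ) *
        ∑ j, X.coeff j 0 * X.z j ^ r * (((r : ℝ) ^ (X.d j) : ℝ) : ℂ)) atTop (𝓝 0) := by
      rw [tendsto_zero_iff_norm_tendsto_zero]
      have t1 := (tendsto_rpow_neg_nat (x := -δ) (by linarith)).const_mul |C|
      have t2 := hup (X.top - s) (by linarith)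
      have t3 : Tendsto (fun r : ℕ => |C| * (r : ℝ) ^ (-δ) +
          ‖Y r‖ * (r : ℝ) ^ (-s - (X.top - s))) atTop (𝓝 0) := by
        simpa using t1.add t2
      refine tendsto_of_tendsto_of_tendsto_of_le_of_le' tendsto_const_nhds t3
        (Eventually.of_forall fun _ => norm_nonneg _) ?_
      filter_upwards [eventually_ge_atTop 2] with r hr
      have hr0 : (0 : ℝ) < r := by exact_mod_cast (by omega : 0 < r)
      have h1 := hb r hr
      set S := ∑ j, X.coeff j 0 * X.z j ^ r * (((r : ℝ) ^ (X.d j) : ℝ) : ℂ) with hS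
      have h2 : ‖S‖ ≤ |C| * (r : ℝ) ^ (X.top - δ) + ‖Y r‖ := by
        have : S = Y r - (Y r - S) := by ring
        calc ‖S‖ = ‖Y r - (Y r - S)‖ := by rw [← this]
          _ ≤ ‖Y r‖ + ‖Y r - S‖ := norm_sub_le _ _
          _ ≤ _ := by linarith
      rw [norm_mul, Complex.norm_real, Real.norm_of_nonneg (by positivity)]
      calc (r : ℝ) ^ (-X.top) * ‖S‖ ≤
            (r : ℝ) ^ (-X.top) * (|C| * (r : ℝ) ^ (X.top - δ) + ‖Y r‖) :=
            mul_le_mul_of_nonneg_left h2 (by positivity)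
        _ = |C| * ((r : ℝ) ^ (X.top - δ) * (r : ℝ) ^ (-X.top)) +
            ‖Y r‖ * (r : ℝ) ^ (-X.top) := by ring
        _ = _ := by
            rw [← Real.rpow_add hr0]
            congr 2
            · ring_nf
            · ring_nf
    obtain ⟨j, _, hj⟩ := exists_mem_eq_sup' (univ_nonempty (α := Fin (X.m + 1))) X.d
    have h0 := unique_aux X.z X.norm_z X.d (by
      intro i k hik
      exact X.z_injective (Prod.mk.inj hik).1) (fun j => X.coeff j 0) X.top hlim j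
      (by unfold Expansion.top; rw [hj])
    exact X.coeff_zero_ne (hv j) h0

theorem tree_zero (n : ℤ) (u : ℕ → ℂ) (hu : ∀ r, ‖u r‖ = 1) (X : Expansion)
    (hv : ∀ j, 0 < X.v j) (δ : ℝ) (hδ : 0 < δ) :
    ¬ X.Bound δ (fun r => u r * treeSurgery n r) 0 := by
  obtain ⟨C', hC'⟩ := tree_norm n u hu
  have hκ : 0 < kap n * (Real.sqrt 2 / Real.pi) := mul_pos (kap_pos n) (by positivity)
  exact not_bound_zero X hv δ hδ _ (1 / 2) (low_of _ _ _ _ hκ hC') (up_of _ _ _ _ hC')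

theorem bundle_zero (u : ℕ → ℂ) (hu : ∀ r, ‖u r‖ = 1) (X : Expansion)
    (hv : ∀ j, 0 < X.v j) (δ : ℝ) (hδ : 0 < δ) :
    ¬ X.Bound δ (fun r => u r * boundingPairBundle r) 0 :=
  not_bound_zero X hv δ hδ _ 4 (bundle_low u hu) (bundle_up u hu)

end Pool.Agent.Lib.MP_fcdc94_gt.Log
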